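import Mathlib

/-! Gaussian integrals with harmonic polynomials of degree one and two in the plane. -/

set_option autoImplicit false

open MeasureTheory Set Filter Topology Metric
open scoped Real ENNReal

namespace Pool.Agent.R247.MZ

/-- the plane -/
abbrev E := EuclideanSpace ℝ (Fin 2)

/-- the polynomials `x₀` and `x₀² - x₁²` -/
noncomputable def PP (j : Fin 2) (x : E) : ℝ := if j = 0 then x 0 else x 0 ^ 2 - x 1 ^ 2

/-- the degree -/
def dg (j : Fin 2) : ℕ := if j = 0 then 1 else 2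

lemma normsq (x : E) : ‖x‖ ^ 2 = x 0 ^ 2 + x 1 ^ 2 := by
  rw [EuclideanSpace.norm_sq_eq]
  simp [Fin.sum_univ_two]

lemma PP_cont (j : Fin 2) : Continuous (PP j) := by
  unfold PP
  split_ifs <;> fun_prop

lemma PP_le (j : Fin 2) (x : E) : |PP j x| ≤ ‖x‖ ^ dg j := by
  have h := normsq x
  unfold PP dg
  split_ifs with hj
  · rw [pow_one]
    refine abs_le_of_sq_le_sq ?_ (norm_nonneg x)
    nlinarith [sq_nonneg (x 1)]
  · rw [abs_le]
    constructor <;> nlinarith [sq_nonneg (x 1), sq_nonneg (x 0)]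

/-- the Gaussian wave -/
noncomputable def GG (s : ℝ) (x ξ : E) : ℂ :=
  Complex.exp (-((π * s : ℝ) : ℂ) * (‖ξ‖ : ℂ) ^ 2 + (2 * π * Complex.I) * (inner ℝ x ξ : ℝ))

lemma GG_norm (s : ℝ) (x ξ : E) : ‖GG s x ξ‖ = Real.exp (-(π * s) * ‖ξ‖ ^ 2) := by
  unfold GG
  rw [Complex.norm_exp]
  congr 1
  have h1 : (-((π * s : ℝ) : ℂ) * (‖ξ‖ : ℂ) ^ 2) = ((-(π * s) * ‖ξ‖ ^ 2 : ℝ) : ℂ) := by
    push_cast; ring
  have h2 : (2 * π * Complex.I) * ((inner ℝ x ξ : ℝ) : ℂ) = ((2 * π * inner ℝ x ξ : ℝ) : ℂ) * Complex.I := by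
    push_cast; ring
  rw [h1, h2, Complex.add_re, Complex.ofReal_re, Complex.re_ofReal_mul, Complex.I_re, mul_zero,
    add_zero]

lemma GG_cont (s : ℝ) (x : E) : Continuous (GG s x) := by
  unfold GG
  fun_prop

lemma gauss_int {b : ℝ} (hb : 0 < b) : Integrable (fun ξ : E => Real.exp (-b * ‖ξ‖ ^ 2)) := by
  have h := GaussianFourier.integrable_cexp_neg_mul_sq_norm_add (V := E) (b := (b : ℂ))
    (by simpa using hb) 0 0
  refine h.norm.congr (ae_of_all _ fun ξ => ?_)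
  simp only [zero_mul, add_zero]
  rw [Complex.norm_exp]
  congr 1
  rw [← Complex.ofReal_pow, ← Complex.ofReal_neg, ← Complex.ofReal_mul, Complex.ofReal_re]

lemma poly_gauss_int {b : ℝ} (hb : 0 < b) (n : ℕ) (hn : n ≤ 2) :
    Integrable (fun ξ : E => ‖ξ‖ ^ n * Real.exp (-b * ‖ξ‖ ^ 2)) := by
  have h := (gauss_int (b := b / 2) (by positivity)).const_mul (1 + 2 / b)
  refine h.mono' (by fun_prop) (ae_of_all _ fun ξ => ?_)
  rw [Real.norm_of_nonneg (by positivity)]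
  have e : Real.exp (-b * ‖ξ‖ ^ 2) = Real.exp (-(b / 2) * ‖ξ‖ ^ 2) * Real.exp (-(b / 2) * ‖ξ‖ ^ 2) := by
    rw [← Real.exp_add]; ring_nf
  have h1 : ‖ξ‖ ^ n ≤ 1 + ‖ξ‖ ^ 2 := by
    have h0 := norm_nonneg ξ
    interval_cases n
    · rw [pow_zero]; nlinarith
    · rw [pow_one]; nlinarith [sq_nonneg (‖ξ‖ - 1)]
    · linarith
  have h2 : (1 + ‖ξ‖ ^ 2) * Real.exp (-(b / 2) * ‖ξ‖ ^ 2) ≤ 1 + 2 / b := by
    have h3 : (b / 2) * ‖ξ‖ ^ 2 + 1 ≤ Real.exp ((b / 2) * ‖ξ‖ ^ 2) := Real.add_one_le_exp _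
    have h4 : Real.exp (-(b / 2) * ‖ξ‖ ^ 2) = (Real.exp ((b / 2) * ‖ξ‖ ^ 2))⁻¹ := by
      rw [← Real.exp_neg]; ring_nf
    rw [h4, ← div_eq_mul_inv, div_le_iff₀ (Real.exp_pos _)]
    have h5 : 0 ≤ (b / 2) * ‖ξ‖ ^ 2 := by positivity
    have h6 : ‖ξ‖ ^ 2 = 2 / b * ((b / 2) * ‖ξ‖ ^ 2) := by field_simp
    have h7 : 0 < 2 / b := by positivity
    nlinarith [mul_le_mul_of_nonneg_left h3 h7.le]
  calc ‖ξ‖ ^ n * Real.exp (-b * ‖ξ‖ ^ 2)
      ≤ (1 + ‖ξ‖ ^ 2) * Real.exp (-b * ‖ξ‖ ^ 2) := by gcongr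
    _ = ((1 + ‖ξ‖ ^ 2) * Real.exp (-(b / 2) * ‖ξ‖ ^ 2)) * Real.exp (-(b / 2) * ‖ξ‖ ^ 2) := by
        rw [e]; ring
    _ ≤ (1 + 2 / b) * Real.exp (-(b / 2) * ‖ξ‖ ^ 2) := by gcongr

/-- multiples of the Gaussian wave by functions of growth at most quadratic are integrable -/
lemma mul_GG_int {s : ℝ} (hs : 0 < s) (x : E) (q : E → ℂ) (hq : Continuous q) (C : ℝ)
    (n : ℕ) (hn : n ≤ 2) (h : ∀ ξ, ‖q ξ‖ ≤ C * ‖ξ‖ ^ n) :
    Integrable (fun ξ => q ξ * GG s x ξ) := by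
  have h1 := (poly_gauss_int (b := π * s) (by positivity) n hn).const_mul C
  refine h1.mono' (hq.mul (GG_cont s x)).aestronglyMeasurable (ae_of_all _ fun ξ => ?_)
  rw [norm_mul, GG_norm, ← mul_assoc]
  gcongr
  exact h ξ

lemma GG_int {s : ℝ} (hs : 0 < s) (x : E) : Integrable (fun ξ => GG s x ξ) := by
  have := mul_GG_int hs x (fun _ => 1) continuous_const 1 0 (by norm_num) (by simp)
  simpa using this

/-- the basic integral -/
lemma GG_val {s : ℝ} (hs : 0 < s) (x : E) :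
    ∫ ξ, GG s x ξ = ((s⁻¹ * Real.exp (-π * ‖x‖ ^ 2 / s) : ℝ) : ℂ) := by
  have h := GaussianFourier.integral_cexp_neg_mul_sq_norm_add (V := E) (b := ((π * s : ℝ) : ℂ))
    (by rw [Complex.ofReal_re]; positivity) (2 * π * Complex.I) x
  unfold GG
  rw [h]
  have hd : (Module.finrank ℝ E : ℂ) / 2 = 1 := by simp
  rw [hd, Complex.cpow_one]
  push_cast
  have hpi : (π : ℂ) ≠ 0 := by exact_mod_cast Real.pi_ne_zero
  have hsc : (s : ℂ) ≠ 0 := by exact_mod_cast hs.ne'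
  congr 1
  · field_simp
  · congr 1
    have : (2 * (π : ℂ) * Complex.I) ^ 2 = -(4 * π ^ 2) := by
      rw [mul_pow, Complex.I_sq]; ring
    rw [this]
    field_simp

/-- the basis vectors -/
noncomputable def ev (i : Fin 2) : E := EuclideanSpace.single i 1

lemma inner_ev (i : Fin 2) (x : E) : inner ℝ x (ev i) = x i := by
  unfold ev
  rw [EuclideanSpace.inner_single_right]
  simp

lemma GG_line (s : ℝ) (x ξ : E) (i : Fin 2) :
    HasLineDerivAt ℝ (GG s x) ((((-(2 * π * s) * ξ i : ℝ) : ℂ) + (2 * π * Complex.I) * x i) * GG s x ξ)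
      ξ (ev i) := by
  unfold HasLineDerivAt
  have h1 : ∀ t : ℝ, GG s x (ξ + t • ev i) = Complex.exp ((-((π * s) * (‖ξ‖ ^ 2 + 2 * t * ξ i + t ^ 2) : ℝ) : ℂ)
      + (2 * π * Complex.I) * ((inner ℝ x ξ + t * x i : ℝ) : ℂ)) := by
    intro t
    unfold GG
    have e1 : ‖ξ + t • ev i‖ ^ 2 = ‖ξ‖ ^ 2 + 2 * t * ξ i + t ^ 2 := by
      rw [norm_add_sq_real, inner_smul_right, inner_ev, norm_smul]
      have : ‖ev i‖ = 1 := by simp [ev]
      rw [this, mul_one, Real.norm_eq_abs, sq_abs]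
      ring
    have e2 : inner ℝ x (ξ + t • ev i) = inner ℝ x ξ + t * x i := by
      rw [inner_add_right, inner_smul_right, inner_ev]
    rw [e2, ← Complex.ofReal_pow, e1]
    congr 1
    push_cast
    ring
  simp_rw [h1]
  have h2 : HasDerivAt (fun t : ℝ => ((-((π * s) * (‖ξ‖ ^ 2 + 2 * t * ξ i + t ^ 2) : ℝ) : ℂ)
      + (2 * π * Complex.I) * ((inner ℝ x ξ + t * x i : ℝ) : ℂ)))
      ((((-(2 * π * s) * ξ i : ℝ) : ℂ) + (2 * π * Complex.I) * x i)) 0 := by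
    have a1 : HasDerivAt (fun t : ℝ => (π * s) * (‖ξ‖ ^ 2 + 2 * t * ξ i + t ^ 2))
        ((2 * π * s) * ξ i) 0 := by
      have b1 : HasDerivAt (fun t : ℝ => t) 1 (0 : ℝ) := hasDerivAt_id 0
      have b2 := (((b1.const_mul 2).mul_const (ξ i)).const_add (‖ξ‖ ^ 2)).add (b1.pow 2)
      have b3 := b2.const_mul (π * s)
      refine b3.congr_deriv ?_
      simp
      ring
    have a2 : HasDerivAt (fun t : ℝ => (inner ℝ x ξ + t * x i : ℝ)) (x i) 0 := by
      have b1 : HasDerivAt (fun t : ℝ => t) 1 (0 : ℝ) := hasDerivAt_id 0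
      have b2 := (b1.mul_const (x i)).const_add (inner ℝ x ξ : ℝ)
      simpa using b2
    have a3 := a1.ofReal_comp.neg.add (a2.ofReal_comp.const_mul (2 * π * Complex.I))
    refine a3.congr_deriv ?_
    push_cast
    ring
  have h3 := h2.cexp
  refine h3.congr_deriv ?_
  rw [mul_comm]
  congr 1
  unfold GG
  congr 1
  push_cast
  ring

lemma ev_apply (i j : Fin 2) : (ev i) j = if j = i then 1 else 0 := by
  unfold ev
  simp

lemma abs_coord (ξ : E) (i : Fin 2) : |ξ i| ≤ ‖ξ‖ := by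
  have := EuclideanSpace.norm_eq ξ
  rw [← Real.norm_eq_abs]
  exact PiLp.norm_apply_le ξ i

/-- first moments -/
lemma GG_one {s : ℝ} (hs : 0 < s) (x : E) (i : Fin 2) :
    ∫ ξ, ((ξ i : ℝ) : ℂ) * GG s x ξ = (Complex.I * x i / s) * ∫ ξ, GG s x ξ := by
  have hi1 : Integrable (fun ξ => ((ξ i : ℝ) : ℂ) * GG s x ξ) :=
    mul_GG_int hs x _ (by fun_prop) 1 1 (by norm_num) (fun ξ => by
      rw [Complex.norm_real, Real.norm_eq_abs, one_mul, pow_one]; exact abs_coord ξ i)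
  have hi0 := GG_int hs x
  have h := integral_bilinear_hasLineDerivAt_right_eq_neg_left_of_integrable
    (μ := (volume : Measure E)) (f := fun _ => (1 : ℂ)) (f' := fun _ => (0 : ℂ)) (g := GG s x)
    (g' := fun ξ => (((-(2 * π * s) * ξ i : ℝ) : ℂ) + (2 * π * Complex.I) * x i) * GG s x ξ)
    (v := ev i) (B := ContinuousLinearMap.mul ℝ ℂ) (by simp) (by
      simp only [ContinuousLinearMap.mul_apply', one_mul]
      have := (hi1.const_mul ((-(2 * π * s) : ℝ) : ℂ)).add (hi0.const_mul ((2 * π * Complex.I) * x i))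
      refine this.congr (ae_of_all _ fun ξ => ?_)
      simp only [Pi.add_apply]
      push_cast
      ring) (by simpa using hi0) (fun ξ _ => by
        simpa [HasLineDerivAt] using hasDerivAt_const (0 : ℝ) (1 : ℂ)) (fun ξ _ => GG_line s x ξ i)
  simp only [ContinuousLinearMap.mul_apply', one_mul, zero_mul, integral_zero, neg_zero] at h
  have h2 : ∫ ξ, ((((-(2 * π * s) * ξ i : ℝ) : ℂ) + (2 * π * Complex.I) * x i) * GG s x ξ)
      = ((-(2 * π * s) : ℝ) : ℂ) * (∫ ξ, ((ξ i : ℝ) : ℂ) * GG s x ξ)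
        + ((2 * π * Complex.I) * x i) * ∫ ξ, GG s x ξ := by
    rw [← integral_const_mul, ← integral_const_mul, ← integral_add (hi1.const_mul _)
      (hi0.const_mul _)]
    refine integral_congr_ae (ae_of_all _ fun ξ => ?_)
    push_cast
    ring
  rw [h2] at h
  have hpi : (π : ℂ) ≠ 0 := by exact_mod_cast Real.pi_ne_zero
  have hsc : (s : ℂ) ≠ 0 := by exact_mod_cast hs.ne'
  have h3 : (2 * π * s : ℂ) * ∫ ξ, ((ξ i : ℝ) : ℂ) * GG s x ξ
      = (2 * π * s : ℂ) * ((Complex.I * x i / s) * ∫ ξ, GG s x ξ) := by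
    have e : (2 * π * s : ℂ) * ((Complex.I * x i / s) * ∫ ξ, GG s x ξ)
        = ((2 * π * Complex.I) * x i) * ∫ ξ, GG s x ξ := by
      field_simp
    rw [e]
    push_cast at h
    linear_combination -h
  exact mul_left_cancel₀ (by simp [hpi, hsc]) h3

/-- second moments -/
lemma GG_two {s : ℝ} (hs : 0 < s) (x : E) (i : Fin 2) :
    ∫ ξ, ((ξ i ^ 2 : ℝ) : ℂ) * GG s x ξ = (1 / (2 * π * s)) * (∫ ξ, GG s x ξ)
      + (Complex.I * x i / s) * ∫ ξ, ((ξ i : ℝ) : ℂ) * GG s x ξ := by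
  have hi1 : Integrable (fun ξ => ((ξ i : ℝ) : ℂ) * GG s x ξ) :=
    mul_GG_int hs x _ (by fun_prop) 1 1 (by norm_num) (fun ξ => by
      rw [Complex.norm_real, Real.norm_eq_abs, one_mul, pow_one]; exact abs_coord ξ i)
  have hi2 : Integrable (fun ξ => ((ξ i ^ 2 : ℝ) : ℂ) * GG s x ξ) :=
    mul_GG_int hs x _ (by fun_prop) 1 2 (by norm_num) (fun ξ => by
      rw [Complex.norm_real, Real.norm_eq_abs, one_mul, abs_pow]
      gcongr
      exact abs_coord ξ i)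
  have hi0 := GG_int hs x
  have h := integral_bilinear_hasLineDerivAt_right_eq_neg_left_of_integrable
    (μ := (volume : Measure E)) (f := fun ξ => ((ξ i : ℝ) : ℂ)) (f' := fun _ => (1 : ℂ)) (g := GG s x)
    (g' := fun ξ => (((-(2 * π * s) * ξ i : ℝ) : ℂ) + (2 * π * Complex.I) * x i) * GG s x ξ)
    (v := ev i) (B := ContinuousLinearMap.mul ℝ ℂ) (by simpa using hi0) (by
      simp only [ContinuousLinearMap.mul_apply']
      have := (hi2.const_mul ((-(2 * π * s) : ℝ) : ℂ)).add (hi1.const_mul ((2 * π * Complex.I) * x i))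
      refine this.congr (ae_of_all _ fun ξ => ?_)
      simp only [Pi.add_apply]
      push_cast
      ring) (by simpa using hi1) (fun ξ _ => by
        unfold HasLineDerivAt
        have e : ∀ t : ℝ, (((ξ + t • ev i) i : ℝ) : ℂ) = (((ξ i + t) : ℝ) : ℂ) := by
          intro t
          congr 1
          rw [PiLp.add_apply, PiLp.smul_apply, ev_apply, if_pos rfl, smul_eq_mul, mul_one]
        simp_rw [e]
        have b1 : HasDerivAt (fun t : ℝ => ξ i + t) 1 (0 : ℝ) := (hasDerivAt_id 0).const_add _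
        simpa using b1.ofReal_comp) (fun ξ _ => GG_line s x ξ i)
  simp only [ContinuousLinearMap.mul_apply', one_mul] at h
  have h2 : ∫ ξ, (((ξ i : ℝ) : ℂ) * ((((-(2 * π * s) * ξ i : ℝ) : ℂ) + (2 * π * Complex.I) * x i) * GG s x ξ))
      = ((-(2 * π * s) : ℝ) : ℂ) * (∫ ξ, ((ξ i ^ 2 : ℝ) : ℂ) * GG s x ξ)
        + ((2 * π * Complex.I) * x i) * ∫ ξ, ((ξ i : ℝ) : ℂ) * GG s x ξ := by
    rw [← integral_const_mul, ← integral_const_mul, ← integral_add (hi2.const_mul _)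
      (hi1.const_mul _)]
    refine integral_congr_ae (ae_of_all _ fun ξ => ?_)
    push_cast
    ring
  rw [h2] at h
  have hpi : (π : ℂ) ≠ 0 := by exact_mod_cast Real.pi_ne_zero
  have hsc : (s : ℂ) ≠ 0 := by exact_mod_cast hs.ne'
  have h3 : (2 * π * s : ℂ) * ∫ ξ, ((ξ i ^ 2 : ℝ) : ℂ) * GG s x ξ
      = (2 * π * s : ℂ) * ((1 / (2 * π * s)) * (∫ ξ, GG s x ξ)
      + (Complex.I * x i / s) * ∫ ξ, ((ξ i : ℝ) : ℂ) * GG s x ξ) := by
    have e : (2 * π * s : ℂ) * ((1 / (2 * π * s)) * (∫ ξ, GG s x ξ)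
        + (Complex.I * x i / s) * ∫ ξ, ((ξ i : ℝ) : ℂ) * GG s x ξ)
        = (∫ ξ, GG s x ξ) + ((2 * π * Complex.I) * x i) * ∫ ξ, ((ξ i : ℝ) : ℂ) * GG s x ξ := by
      field_simp
    rw [e]
    push_cast at h ⊢
    linear_combination -h
  exact mul_left_cancel₀ (by simp [hpi, hsc]) h3

/-- the polynomial times the Gaussian wave -/
lemma PP_GG_int {s : ℝ} (hs : 0 < s) (x : E) (j : Fin 2) :
    Integrable (fun ξ => ((PP j ξ : ℝ) : ℂ) * GG s x ξ) :=
  mul_GG_int hs x _ (Complex.continuous_ofReal.comp (PP_cont j)) 1 (dg j)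
    (by unfold dg; split_ifs <;> norm_num) (fun ξ => by
      rw [Complex.norm_real, Real.norm_eq_abs, one_mul]; exact PP_le j ξ)

theorem PP_GG {s : ℝ} (hs : 0 < s) (x : E) (j : Fin 2) :
    ∫ ξ, ((PP j ξ : ℝ) : ℂ) * GG s x ξ
      = Complex.I ^ dg j * ((s ^ (dg j + 1))⁻¹ * PP j x * Real.exp (-π * ‖x‖ ^ 2 / s) : ℝ) := by
  have hsc : (s : ℂ) ≠ 0 := by exact_mod_cast hs.ne'
  unfold PP dg
  split_ifs with hj
  · rw [GG_one hs, GG_val hs]
    push_cast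
    field_simp
  · have hi2 : ∀ i, Integrable (fun ξ => ((ξ i ^ 2 : ℝ) : ℂ) * GG s x ξ) := fun i =>
      mul_GG_int hs x _ (by fun_prop) 1 2 (by norm_num) (fun ξ => by
        rw [Complex.norm_real, Real.norm_eq_abs, one_mul, abs_pow]
        gcongr
        exact abs_coord ξ i)
    have e : ∫ ξ, (((ξ 0 ^ 2 - ξ 1 ^ 2 : ℝ)) : ℂ) * GG s x ξ
        = (∫ ξ, ((ξ 0 ^ 2 : ℝ) : ℂ) * GG s x ξ) - ∫ ξ, ((ξ 1 ^ 2 : ℝ) : ℂ) * GG s x ξ := by
      rw [← integral_sub (hi2 0) (hi2 1)]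
      refine integral_congr_ae (ae_of_all _ fun ξ => ?_)
      push_cast
      ring
    rw [e, GG_two hs, GG_two hs, GG_one hs, GG_one hs, GG_val hs]
    push_cast
    field_simp
    ring

end Pool.Agent.R247.MZ
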