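import Pool.Agent.R247.MZ.A

/-! Subordination and the kernel identity. -/

set_option autoImplicit false

open MeasureTheory Set Filter Topology Metric
open scoped Real ENNReal

namespace Pool.Agent.R247.MZ

/-- the Gamma weight -/
noncomputable def w1 (a : ℝ) (t ρ : ℝ) : ℝ :=
  π ^ a / Real.Gamma a * (t ^ (a - 1) * Real.exp (-(π * ρ ^ 2 * t)))

/-- the inverse Gamma weight -/
noncomputable def w2 (a : ℝ) (t ρ : ℝ) : ℝ :=
  π ^ a / Real.Gamma a * (t ^ (-a - 1) * Real.exp (-(π * ρ ^ 2 * t⁻¹)))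

lemma cst_pos {a : ℝ} (ha : 0 < a) : 0 < π ^ a / Real.Gamma a := by
  have := Real.Gamma_pos_of_pos ha
  have := Real.pi_pos
  positivity

lemma w1_nonneg {a : ℝ} (ha : 0 < a) {t : ℝ} (ht : 0 < t) (ρ : ℝ) : 0 ≤ w1 a t ρ := by
  have := cst_pos ha
  unfold w1
  positivity

lemma w2_nonneg {a : ℝ} (ha : 0 < a) {t : ℝ} (ht : 0 < t) (ρ : ℝ) : 0 ≤ w2 a t ρ := by
  have := cst_pos ha
  unfold w2
  positivity

lemma w1_int {a : ℝ} (ha : 0 < a) {ρ : ℝ} (hρ : 0 < ρ) : IntegrableOn (fun t => w1 a t ρ) (Ioi 0) := by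
  have h := integrableOn_rpow_mul_exp_neg_mul_rpow (p := 1) (s := a - 1) (b := π * ρ ^ 2)
    (by linarith) one_pos (by positivity)
  unfold w1
  refine IntegrableOn.congr_fun (f := fun t => π ^ a / Real.Gamma a * (t ^ (a - 1) *
    Real.exp (-(π * ρ ^ 2) * t ^ (1 : ℝ)))) (h.const_mul _) (fun t _ => ?_) measurableSet_Ioi
  simp only [Real.rpow_one]
  ring_nf

lemma w1_val {a : ℝ} (ha : 0 < a) {ρ : ℝ} (hρ : 0 < ρ) :
    ∫ t in Ioi (0 : ℝ), w1 a t ρ = ρ ^ (-(2 * a)) := by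
  unfold w1
  rw [integral_const_mul, Real.integral_rpow_mul_exp_neg_mul_Ioi ha (by positivity)]
  have hG := (Real.Gamma_pos_of_pos ha).ne'
  rw [one_div, Real.inv_rpow (by positivity), Real.mul_rpow Real.pi_pos.le (by positivity),
    ← Real.rpow_natCast ρ 2, ← Real.rpow_mul hρ.le, Real.rpow_neg hρ.le]
  push_cast
  have hp := (Real.rpow_pos_of_pos Real.pi_pos a).ne'
  have hr := (Real.rpow_pos_of_pos hρ (2 * a)).ne'
  field_simp

lemma w2_eq (a : ℝ) (ρ : ℝ) {t : ℝ} (ht : 0 < t) :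
    w2 a t ρ = t ^ ((-1 : ℝ) - 1) • w1 a (t ^ (-1 : ℝ)) ρ := by
  unfold w1 w2
  rw [smul_eq_mul, ← Real.rpow_mul ht.le, Real.rpow_neg_one]
  have : t ^ (-a - 1) = t ^ ((-1 : ℝ) - 1) * t ^ (-1 * (a - 1)) := by
    rw [← Real.rpow_add ht]
    congr 1
    ring
  rw [this]
  ring

lemma w2_int {a : ℝ} (ha : 0 < a) {ρ : ℝ} (hρ : 0 < ρ) : IntegrableOn (fun t => w2 a t ρ) (Ioi 0) := by
  have h := (integrableOn_Ioi_comp_rpow_iff' (fun t => w1 a t ρ) (p := -1) (by norm_num)).2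
    (w1_int ha hρ)
  exact h.congr_fun (fun t ht => (w2_eq a ρ ht).symm) measurableSet_Ioi

lemma w2_val {a : ℝ} (ha : 0 < a) {ρ : ℝ} (hρ : 0 < ρ) :
    ∫ t in Ioi (0 : ℝ), w2 a t ρ = ρ ^ (-(2 * a)) := by
  rw [← w1_val ha hρ, ← integral_comp_rpow_Ioi (fun t => w1 a t ρ) (p := -1) (by norm_num)]
  refine setIntegral_congr_fun measurableSet_Ioi fun t ht => ?_
  rw [w2_eq a ρ ht, abs_neg, abs_one, one_mul]

/-- Fubini with a subordination weight -/
lemma fub (a : ℝ) (w : ℝ → ℝ → ℝ) (hw : Measurable (Function.uncurry w))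
    (h0 : ∀ t : ℝ, 0 < t → ∀ ρ, 0 ≤ w t ρ)
    (hi : ∀ ρ : ℝ, 0 < ρ → IntegrableOn (fun t => w t ρ) (Ioi 0))
    (hv : ∀ ρ : ℝ, 0 < ρ → ∫ t in Ioi (0 : ℝ), w t ρ = ρ ^ (-(2 * a)))
    (h : E → ℂ) (hm : AEStronglyMeasurable h volume)
    (hint : Integrable (fun z => ((‖z‖ ^ (-(2 * a)) : ℝ) : ℂ) * h z)) :
    ∫ z, ((‖z‖ ^ (-(2 * a)) : ℝ) : ℂ) * h z
      = ∫ t in Ioi (0 : ℝ), ∫ z, ((w t ‖z‖ : ℝ) : ℂ) * h z := by
  have hne : ∀ᵐ z : E, z ≠ 0 := by
    have : ({0} : Set E)ᶜ ∈ ae (volume : Measure E) :=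
      compl_mem_ae_iff.2 (measure_singleton 0)
    exact this
  have hmw : Measurable fun p : E × ℝ => w p.2 ‖p.1‖ :=
    hw.comp (measurable_snd.prodMk (measurable_norm.comp measurable_fst))
  have hm2 : AEStronglyMeasurable (Function.uncurry fun (z : E) (t : ℝ) =>
      ((w t ‖z‖ : ℝ) : ℂ) * h z)
      ((volume : Measure E).prod (volume.restrict (Ioi (0 : ℝ)))) := by
    refine (Complex.measurable_ofReal.comp hmw).aestronglyMeasurable.mul ?_
    exact hm.comp_fst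
  have hprod : Integrable (Function.uncurry fun (z : E) (t : ℝ) => ((w t ‖z‖ : ℝ) : ℂ) * h z)
      ((volume : Measure E).prod (volume.restrict (Ioi (0 : ℝ)))) := by
    rw [integrable_prod_iff hm2]
    constructor
    · filter_upwards [hne] with z hz
      have h5 : Integrable (fun t => ((w t ‖z‖ : ℝ) : ℂ)) (volume.restrict (Ioi (0 : ℝ))) :=
        (hi ‖z‖ (norm_pos_iff.2 hz)).ofReal
      exact h5.mul_const (h z)
    · refine hint.norm.congr ?_
      filter_upwards [hne] with z hz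
      have hz' := norm_pos_iff.2 hz
      simp only [Function.uncurry, norm_mul, Complex.norm_real]
      rw [integral_mul_const]
      congr 1
      rw [Real.norm_of_nonneg (by positivity), ← hv _ hz']
      refine setIntegral_congr_fun measurableSet_Ioi fun t ht => ?_
      rw [Real.norm_of_nonneg (h0 t ht _)]
  rw [← integral_integral_swap hprod]
  refine integral_congr_ae ?_
  filter_upwards [hne] with z hz
  have hz' := norm_pos_iff.2 hz
  rw [integral_mul_const, integral_complex_ofReal, hv _ hz']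

lemma w1_meas (a : ℝ) : Measurable (Function.uncurry (w1 a)) := by
  unfold w1 Function.uncurry
  fun_prop

lemma w2_meas (a : ℝ) : Measurable (Function.uncurry (w2 a)) := by
  unfold w2 Function.uncurry
  fun_prop

end Pool.Agent.R247.MZ
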