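import Pool.Agent.R247.MZ.B1

/-! Subordination and the kernel identity. -/

set_option autoImplicit false

open MeasureTheory Set Filter Topology Metric
open scoped Real ENNReal

namespace Pool.Agent.R247.MZ

/-- the basic integrable function -/
lemma base_int : Integrable (fun ξ : E => ‖ξ‖⁻¹ * (1 + ‖ξ‖ ^ 2)⁻¹) := by
  have h := (integrable_fun_norm_addHaar (volume : Measure E)
    (f := fun r : ℝ => r⁻¹ * (1 + r ^ 2)⁻¹)).2
  refine h ?_
  have hd : Module.finrank ℝ E - 1 = 1 := by simp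
  rw [hd]
  refine (integrable_inv_one_add_sq.integrableOn (s := Ioi (0 : ℝ))).congr_fun (fun r hr => ?_)
    measurableSet_Ioi
  have : r ≠ 0 := ne_of_gt hr
  simp only [smul_eq_mul, pow_one]
  field_simp

/-- the Fourier transform as in the statement -/
noncomputable def fh (f : E → ℝ) (ξ : E) : ℂ :=
  ∫ y, Complex.exp (-(2 * (π : ℂ) * Complex.I * ((inner ℝ y ξ : ℝ) : ℂ))) * ((f y : ℝ) : ℂ)

/-- the exponential as in the statement -/
noncomputable def ex (x ξ : E) : ℂ := Complex.exp (2 * (π : ℂ) * Complex.I * ((inner ℝ x ξ : ℝ) : ℂ))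

lemma ex_norm (x ξ : E) : ‖ex x ξ‖ = 1 := by
  unfold ex
  have : 2 * (π : ℂ) * Complex.I * ((inner ℝ x ξ : ℝ) : ℂ) = ((2 * π * inner ℝ x ξ : ℝ) : ℂ) * Complex.I := by
    push_cast; ring
  rw [this, Complex.norm_exp_ofReal_mul_I]

lemma ex_cont (x : E) : Continuous (ex x) := by
  unfold ex
  fun_prop

lemma GG_eq (s : ℝ) (x y ξ : E) : GG s (x - y) ξ
    = ((Real.exp (-(π * s) * ‖ξ‖ ^ 2) : ℝ) : ℂ) * ex x ξ *
      Complex.exp (-(2 * (π : ℂ) * Complex.I * ((inner ℝ y ξ : ℝ) : ℂ))) := by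
  unfold GG ex
  rw [Complex.ofReal_exp, ← Complex.exp_add, ← Complex.exp_add]
  congr 1
  rw [inner_sub_left]
  push_cast
  ring

/-- a bound for the decay of a function -/
def Dec (C : ℝ) (h : E → ℂ) : Prop := ∀ z, ‖h z‖ ≤ C * (1 + ‖z‖ ^ 2)⁻¹

lemma fh_cont {f : E → ℝ} (hf : Continuous f) (hs : HasCompactSupport f) : Continuous (fh f) := by
  have hi : Integrable f := hf.integrable_of_hasCompactSupport hs
  refine continuous_of_dominated (bound := fun y => ‖f y‖) ?_ ?_ ?_ ?_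
  · intro ξ
    have : Continuous fun y => Complex.exp (-(2 * (π : ℂ) * Complex.I * ((inner ℝ y ξ : ℝ) : ℂ))) *
        ((f y : ℝ) : ℂ) := by fun_prop
    exact this.aestronglyMeasurable
  · intro ξ
    refine ae_of_all _ fun y => ?_
    rw [norm_mul, Complex.norm_real]
    have : -(2 * (π : ℂ) * Complex.I * ((inner ℝ y ξ : ℝ) : ℂ))
        = ((-(2 * π * inner ℝ y ξ) : ℝ) : ℂ) * Complex.I := by push_cast; ring
    rw [this, Complex.norm_exp_ofReal_mul_I, one_mul]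
  · exact hi.norm
  · refine ae_of_all _ fun y => ?_
    fun_prop

/-- the inner identity -/
lemma inner_id (j : Fin 2) {f : E → ℝ} (hf : Continuous f) (hs : HasCompactSupport f)
    {t : ℝ} (ht : 0 < t) (x : E) :
    ∫ z, ((PP j z : ℝ) : ℂ) * ((Real.exp (-(π * ‖z‖ ^ 2 * t)) : ℝ) : ℂ) * ((f (x - z) : ℝ) : ℂ)
      = (-Complex.I) ^ dg j * ((t ^ (dg j + 1))⁻¹ : ℝ) *
        ∫ ξ, ((PP j ξ : ℝ) : ℂ) * ((Real.exp (-(π * ‖ξ‖ ^ 2 * t⁻¹)) : ℝ) : ℂ) * (fh f ξ * ex x ξ) := by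
  have hs0 : 0 < t⁻¹ := inv_pos.2 ht
  have hfi : Integrable f := hf.integrable_of_hasCompactSupport hs
  -- rewrite the left side in the variable y = x - z
  have e1 : ∫ z, ((PP j z : ℝ) : ℂ) * ((Real.exp (-(π * ‖z‖ ^ 2 * t)) : ℝ) : ℂ) *
        ((f (x - z) : ℝ) : ℂ)
      = ∫ y, ((PP j (x - y) : ℝ) : ℂ) * ((Real.exp (-(π * ‖x - y‖ ^ 2 * t)) : ℝ) : ℂ) *
        ((f y : ℝ) : ℂ) := by
    rw [← integral_sub_left_eq_self (fun z => ((PP j z : ℝ) : ℂ) *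
      ((Real.exp (-(π * ‖z‖ ^ 2 * t)) : ℝ) : ℂ) * ((f (x - z) : ℝ) : ℂ)) volume x]
    refine integral_congr_ae (ae_of_all _ fun y => ?_)
    show ((PP j (x - y) : ℝ) : ℂ) * ((Real.exp (-(π * ‖x - y‖ ^ 2 * t)) : ℝ) : ℂ) *
      ((f (x - (x - y)) : ℝ) : ℂ) = _
    rw [sub_sub_cancel]
  rw [e1]
  have hI : (-Complex.I) ^ dg j * Complex.I ^ dg j = 1 := by
    rw [← mul_pow, neg_mul, Complex.I_mul_I, neg_neg, one_pow]
  have e2 : ∀ y : E, ((PP j (x - y) : ℝ) : ℂ) * ((Real.exp (-(π * ‖x - y‖ ^ 2 * t)) : ℝ) : ℂ)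
      = (-Complex.I) ^ dg j * ((t ^ (dg j + 1))⁻¹ : ℝ) *
        ∫ ξ, ((PP j ξ : ℝ) : ℂ) * GG t⁻¹ (x - y) ξ := by
    intro y
    rw [PP_GG hs0]
    have ht' : (t : ℂ) ≠ 0 := by exact_mod_cast ht.ne'
    have e3 : -π * ‖x - y‖ ^ 2 / t⁻¹ = -(π * ‖x - y‖ ^ 2 * t) := by
      rw [div_inv_eq_mul]; ring
    rw [e3, inv_pow, inv_inv]
    calc ((PP j (x - y) : ℝ) : ℂ) * ((Real.exp (-(π * ‖x - y‖ ^ 2 * t)) : ℝ) : ℂ)
        = ((-Complex.I) ^ dg j * Complex.I ^ dg j) * (((t : ℂ) ^ (dg j + 1))⁻¹ * (t : ℂ) ^ (dg j + 1)) *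
          (((PP j (x - y) : ℝ) : ℂ) * ((Real.exp (-(π * ‖x - y‖ ^ 2 * t)) : ℝ) : ℂ)) := by
            rw [hI, inv_mul_cancel₀ (pow_ne_zero _ ht'), one_mul, one_mul]
      _ = _ := by
            push_cast
            ring
  simp_rw [e2]
  -- Fubini
  have hprod : Integrable (Function.uncurry fun (y ξ : E) => ((f y : ℝ) : ℂ) *
      (((PP j ξ : ℝ) : ℂ) * GG t⁻¹ (x - y) ξ)) ((volume : Measure E).prod volume) := by
    have h1 := hfi.norm.mul_prod (PP_GG_int hs0 0 j).norm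
    refine h1.mono' ?_ (ae_of_all _ fun p => ?_)
    · refine Continuous.aestronglyMeasurable ?_
      have := PP_cont j
      show Continuous fun p : E × E => ((f p.1 : ℝ) : ℂ) * (((PP j p.2 : ℝ) : ℂ) * GG t⁻¹ (x - p.1) p.2)
      unfold GG
      fun_prop
    · simp only [Function.uncurry, norm_mul, Complex.norm_real, GG_norm]
      exact le_rfl
  have e4 : ∀ y : E, (-Complex.I) ^ dg j * ((t ^ (dg j + 1))⁻¹ : ℝ) *
        (∫ ξ, ((PP j ξ : ℝ) : ℂ) * GG t⁻¹ (x - y) ξ) * ((f y : ℝ) : ℂ)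
      = (-Complex.I) ^ dg j * ((t ^ (dg j + 1))⁻¹ : ℝ) *
        ∫ ξ, ((f y : ℝ) : ℂ) * (((PP j ξ : ℝ) : ℂ) * GG t⁻¹ (x - y) ξ) := by
    intro y
    rw [integral_const_mul]
    ring
  simp_rw [e4]
  rw [integral_const_mul, integral_integral_swap hprod]
  congr 1
  refine integral_congr_ae (ae_of_all _ fun ξ => ?_)
  show ∫ y : E, ((f y : ℝ) : ℂ) * (((PP j ξ : ℝ) : ℂ) * GG t⁻¹ (x - y) ξ)
    = ((PP j ξ : ℝ) : ℂ) * ((Real.exp (-(π * ‖ξ‖ ^ 2 * t⁻¹)) : ℝ) : ℂ) * (fh f ξ * ex x ξ)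
  unfold fh
  rw [← integral_mul_const, ← integral_const_mul]
  refine integral_congr_ae (ae_of_all _ fun y => ?_)
  show ((f y : ℝ) : ℂ) * (((PP j ξ : ℝ) : ℂ) * GG t⁻¹ (x - y) ξ) = _
  rw [GG_eq]
  have e5 : -(π * t⁻¹) * ‖ξ‖ ^ 2 = -(π * ‖ξ‖ ^ 2 * t⁻¹) := by ring
  rw [e5]
  ring

/-- the kernel times a decaying function is integrable -/
lemma ker_dec_int (j : Fin 2) {h : E → ℂ} (hm : AEStronglyMeasurable h volume) {C : ℝ}
    (hd : Dec C h) :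
    Integrable (fun z => ((‖z‖ ^ (-(2 * (((dg j : ℝ) + 1) / 2))) : ℝ) : ℂ) *
      (((PP j z : ℝ) : ℂ) * h z)) := by
  have h1 := base_int.const_mul C
  have hpm : Measurable fun z : E => ‖z‖ ^ (-(2 * (((dg j : ℝ) + 1) / 2))) :=
    measurable_norm.pow_const _
  refine h1.mono' ((Complex.measurable_ofReal.comp hpm).aestronglyMeasurable.mul
    ((Complex.continuous_ofReal.comp (PP_cont j)).aestronglyMeasurable.mul hm))
    (ae_of_all _ fun z => ?_)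
  rcases eq_or_ne z 0 with rfl | hz
  · have : PP j (0 : E) = 0 := by unfold PP; split_ifs <;> simp
    rw [this]
    simp
  · have hz' := norm_pos_iff.2 hz
    have e : -(2 * (((dg j : ℝ) + 1) / 2)) = -((dg j + 1 : ℕ) : ℝ) := by push_cast; ring
    rw [norm_mul, norm_mul, Complex.norm_real, Complex.norm_real, e, Real.rpow_neg hz'.le,
      Real.rpow_natCast, Real.norm_of_nonneg (by positivity), Real.norm_eq_abs]
    calc (‖z‖ ^ (dg j + 1))⁻¹ * (|PP j z| * ‖h z‖)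
        ≤ (‖z‖ ^ (dg j + 1))⁻¹ * (‖z‖ ^ dg j * (C * (1 + ‖z‖ ^ 2)⁻¹)) := by
          gcongr
          · exact PP_le j z
          · exact hd z
      _ = C * (‖z‖⁻¹ * (1 + ‖z‖ ^ 2)⁻¹) := by
          rw [pow_succ]
          field_simp

/-- **the kernel identity** -/
theorem ker_id (j : Fin 2) {f : E → ℝ} (hf : Continuous f) (hs : HasCompactSupport f) {C : ℝ}
    (hd : Dec C (fh f)) (x : E) :
    ∫ z, ((‖z‖ ^ (-(2 * (((dg j : ℝ) + 1) / 2))) : ℝ) : ℂ) * (((PP j z : ℝ) : ℂ) *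
        ((f (x - z) : ℝ) : ℂ))
      = ∫ ξ, ((‖ξ‖ ^ (-(2 * (((dg j : ℝ) + 1) / 2))) : ℝ) : ℂ) * (((PP j ξ : ℝ) : ℂ) *
        ((-Complex.I) ^ dg j * (fh f ξ * ex x ξ))) := by
  set a : ℝ := ((dg j : ℝ) + 1) / 2 with ha
  have ha0 : 0 < a := by positivity
  have hfx : Continuous fun z => ((f (x - z) : ℝ) : ℂ) := by fun_prop
  have hfxs : HasCompactSupport fun z => ((f (x - z) : ℝ) : ℂ) := by
    have h1 : HasCompactSupport fun z => f (x - z) :=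
      hs.comp_homeomorph (Homeomorph.subLeft x)
    exact h1.comp_left (g := fun r : ℝ => (r : ℂ)) (by simp)
  -- decay of the translate
  obtain ⟨C1, hC1⟩ : ∃ C1, Dec C1 (fun z => ((f (x - z) : ℝ) : ℂ)) := by
    have hc : Continuous fun z : E => (1 + ‖z‖ ^ 2) * f (x - z) := by fun_prop
    have hcs : HasCompactSupport fun z : E => (1 + ‖z‖ ^ 2) * f (x - z) :=
      HasCompactSupport.mul_left (hs.comp_homeomorph (Homeomorph.subLeft x))
    obtain ⟨C1, h1⟩ := hcs.exists_bound_of_continuous hc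
    refine ⟨C1, fun z => ?_⟩
    have h2 := h1 z
    rw [norm_mul, Real.norm_of_nonneg (by positivity : (0 : ℝ) ≤ 1 + ‖z‖ ^ 2)] at h2
    rw [Complex.norm_real, ← div_eq_mul_inv, le_div_iff₀ (by positivity)]
    linarith
  have hc2 : Continuous fun ξ => (-Complex.I) ^ dg j * (fh f ξ * ex x ξ) :=
    continuous_const.mul ((fh_cont hf hs).mul (ex_cont x))
  have hC2 : Dec C (fun ξ => (-Complex.I) ^ dg j * (fh f ξ * ex x ξ)) := by
    intro ξ
    rw [norm_mul, norm_mul, ex_norm, norm_pow, norm_neg, Complex.norm_I, one_pow, one_mul, mul_one]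
    exact hd ξ
  rw [fub a (w1 a) (w1_meas a) (fun t ht ρ => w1_nonneg ha0 ht ρ) (fun ρ hρ => w1_int ha0 hρ)
    (fun ρ hρ => w1_val ha0 hρ) (fun z => ((PP j z : ℝ) : ℂ) * ((f (x - z) : ℝ) : ℂ))
    ((Complex.continuous_ofReal.comp (PP_cont j)).mul hfx).aestronglyMeasurable
    (ker_dec_int j hfx.aestronglyMeasurable hC1),
    fub a (w2 a) (w2_meas a) (fun t ht ρ => w2_nonneg ha0 ht ρ) (fun ρ hρ => w2_int ha0 hρ)
    (fun ρ hρ => w2_val ha0 hρ) (fun ξ => ((PP j ξ : ℝ) : ℂ) *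
      ((-Complex.I) ^ dg j * (fh f ξ * ex x ξ)))
    ((Complex.continuous_ofReal.comp (PP_cont j)).mul hc2).aestronglyMeasurable
    (ker_dec_int j hc2.aestronglyMeasurable hC2)]
  refine setIntegral_congr_fun measurableSet_Ioi fun t ht => ?_
  have ht0 : (0 : ℝ) < t := ht
  have hid := inner_id j hf hs ht0 x
  have e1 : ∫ z, ((w1 a t ‖z‖ : ℝ) : ℂ) * (((PP j z : ℝ) : ℂ) * ((f (x - z) : ℝ) : ℂ))
      = ((π ^ a / Real.Gamma a * t ^ (a - 1) : ℝ) : ℂ) *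
        ∫ z, ((PP j z : ℝ) : ℂ) * ((Real.exp (-(π * ‖z‖ ^ 2 * t)) : ℝ) : ℂ) *
          ((f (x - z) : ℝ) : ℂ) := by
    rw [← integral_const_mul]
    refine integral_congr_ae (ae_of_all _ fun z => ?_)
    unfold w1
    push_cast
    ring
  have e2 : ∫ ξ, ((w2 a t ‖ξ‖ : ℝ) : ℂ) * (((PP j ξ : ℝ) : ℂ) *
        ((-Complex.I) ^ dg j * (fh f ξ * ex x ξ)))
      = ((π ^ a / Real.Gamma a * t ^ (-a - 1) : ℝ) : ℂ) * ((-Complex.I) ^ dg j *
        ∫ ξ, ((PP j ξ : ℝ) : ℂ) * ((Real.exp (-(π * ‖ξ‖ ^ 2 * t⁻¹)) : ℝ) : ℂ) *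
          (fh f ξ * ex x ξ)) := by
    rw [← integral_const_mul, ← integral_const_mul]
    refine integral_congr_ae (ae_of_all _ fun ξ => ?_)
    unfold w2
    push_cast
    ring
  rw [e1, e2, hid]
  have e3 : t ^ (-a - 1) = t ^ (a - 1) * (t ^ (dg j + 1))⁻¹ := by
    rw [← Real.rpow_natCast t (dg j + 1), ← Real.rpow_neg ht0.le, ← Real.rpow_add ht0]
    congr 1
    rw [ha]
    push_cast
    ring
  rw [e3]
  push_cast
  ring

end Pool.Agent.R247.MZ
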