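import Pool.Agent.R247.MZ.B2

/-! Pointwise estimates for the kernel and its mollification. -/

set_option autoImplicit false

open MeasureTheory Set Filter Topology Metric
open scoped Real ENNReal

namespace Pool.Agent.R247.MZ

/-- the kernel -/
noncomputable def KK (x : E) (j : Fin 2) : ℝ := PP j x / ‖x‖ ^ (dg j + 1)

lemma KK_meas (j : Fin 2) : Measurable fun x => KK x j := by
  unfold KK
  exact (PP_cont j).measurable.div (measurable_norm.pow_const _)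

lemma PP_smul (j : Fin 2) (t : ℝ) (x : E) : PP j (t • x) = t ^ dg j * PP j x := by
  unfold PP dg
  split_ifs
  · simp
  · simp only [PiLp.smul_apply, smul_eq_mul]; ring

lemma KK_hom {t : ℝ} (ht : 0 < t) (x : E) (j : Fin 2) : KK (t • x) j = t⁻¹ * KK x j := by
  unfold KK
  rw [PP_smul, norm_smul, Real.norm_of_nonneg ht.le, mul_pow, pow_succ t]
  field_simp

lemma KK_abs (x : E) (j : Fin 2) : |KK x j| ≤ ‖x‖⁻¹ := by
  rcases eq_or_ne x 0 with rfl | hx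
  · have : PP j (0 : E) = 0 := by unfold PP; split_ifs <;> simp
    unfold KK
    rw [this]; simp
  · have hx' := norm_pos_iff.2 hx
    unfold KK
    rw [abs_div, abs_of_pos (by positivity : (0 : ℝ) < ‖x‖ ^ (dg j + 1)), div_le_iff₀ (by positivity)]
    refine (PP_le j x).trans (le_of_eq ?_)
    rw [pow_succ]
    field_simp

lemma inv_diff {z w : E} (hz : z ≠ 0) (hw : w ≠ 0) :
    ‖(‖z‖ ^ 2)⁻¹ • z - (‖w‖ ^ 2)⁻¹ • w‖ = ‖z - w‖ / (‖z‖ * ‖w‖) := by
  have hz' := norm_pos_iff.2 hz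
  have hw' := norm_pos_iff.2 hw
  rw [← sq_eq_sq₀ (norm_nonneg _) (by positivity), div_pow, norm_sub_sq_real, norm_sub_sq_real,
    norm_smul, norm_smul, inner_smul_left, inner_smul_right, Real.norm_of_nonneg (by positivity),
    Real.norm_of_nonneg (by positivity)]
  simp only [conj_trivial]
  field_simp
  ring

lemma h_lip_aux {u v : E} (hu : u ≠ 0) (hv : v ≠ 0) (h : ‖v‖ ≤ ‖u‖) :
    |PP 1 u / ‖u‖ - PP 1 v / ‖v‖| ≤ 3 * ‖u - v‖ := by
  have hu' := norm_pos_iff.2 hu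
  have hv' := norm_pos_iff.2 hv
  have e : PP 1 u / ‖u‖ - PP 1 v / ‖v‖ = (PP 1 u - PP 1 v) / ‖u‖
      - PP 1 v / ‖v‖ * ((‖u‖ - ‖v‖) / ‖u‖) := by
    field_simp
    ring
  have h1 : |PP 1 u - PP 1 v| ≤ ‖u - v‖ * (2 * ‖u‖) := by
    have h2 : |PP 1 u - PP 1 v| ≤ ‖u - v‖ * ‖u + v‖ := by
      have e2 : PP 1 u - PP 1 v = (u 0 - v 0) * (u 0 + v 0) - (u 1 - v 1) * (u 1 + v 1) := by
        unfold PP
        simp only [one_ne_zero, if_false]
        ring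
      rw [e2]
      refine abs_le_of_sq_le_sq ?_ (by positivity)
      have a1 := normsq (u - v)
      have a2 := normsq (u + v)
      simp only [PiLp.sub_apply, PiLp.add_apply] at a1 a2
      rw [mul_pow, a1, a2]
      nlinarith [sq_nonneg ((u 0 - v 0) * (u 1 + v 1) + (u 1 - v 1) * (u 0 + v 0))]
    refine h2.trans ?_
    have := norm_add_le u v
    gcongr
    linarith
  have h3 : |PP 1 v / ‖v‖| ≤ ‖v‖ := by
    rw [abs_div, abs_norm, div_le_iff₀ hv']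
    refine (PP_le 1 v).trans (le_of_eq ?_)
    unfold dg
    simp only [one_ne_zero, if_false]
    ring
  have h4 : |(‖u‖ - ‖v‖) / ‖u‖| ≤ ‖u - v‖ / ‖u‖ := by
    rw [abs_div, abs_norm]
    gcongr
    exact abs_norm_sub_norm_le u v
  rw [e]
  calc |(PP 1 u - PP 1 v) / ‖u‖ - PP 1 v / ‖v‖ * ((‖u‖ - ‖v‖) / ‖u‖)|
      ≤ |(PP 1 u - PP 1 v) / ‖u‖| + |PP 1 v / ‖v‖ * ((‖u‖ - ‖v‖) / ‖u‖)| := abs_sub _ _
    _ ≤ ‖u - v‖ * (2 * ‖u‖) / ‖u‖ + ‖v‖ * (‖u - v‖ / ‖u‖) := by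
        rw [abs_div, abs_norm, abs_mul]
        gcongr
    _ ≤ 2 * ‖u - v‖ + ‖u - v‖ := by
        have a1 : ‖u - v‖ * (2 * ‖u‖) / ‖u‖ = 2 * ‖u - v‖ := by field_simp
        have a2 : ‖v‖ * (‖u - v‖ / ‖u‖) ≤ ‖u - v‖ := by
          rw [← mul_div_assoc, div_le_iff₀ hu', mul_comm]
          gcongr
        linarith
    _ = _ := by ring

lemma h_lip {u v : E} (hu : u ≠ 0) (hv : v ≠ 0) :
    |PP 1 u / ‖u‖ - PP 1 v / ‖v‖| ≤ 3 * ‖u - v‖ := by
  rcases le_total ‖v‖ ‖u‖ with h | h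
  · exact h_lip_aux hu hv h
  · rw [abs_sub_comm, norm_sub_rev]
    exact h_lip_aux hv hu h

lemma KK_diff {z w : E} (hz : z ≠ 0) (hw : w ≠ 0) (j : Fin 2) :
    |KK z j - KK w j| ≤ 3 * (‖z - w‖ / (‖z‖ * ‖w‖)) := by
  have hz' := norm_pos_iff.2 hz
  have hw' := norm_pos_iff.2 hw
  have hid := inv_diff hz hw
  fin_cases j
  · have h1 := abs_coord ((‖z‖ ^ 2)⁻¹ • z - (‖w‖ ^ 2)⁻¹ • w) 0
    rw [hid] at h1
    have e : ((‖z‖ ^ 2)⁻¹ • z - (‖w‖ ^ 2)⁻¹ • w) 0 = KK z 0 - KK w 0 := by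
      unfold KK PP dg
      simp only [PiLp.sub_apply, PiLp.smul_apply, smul_eq_mul, if_true]
      field_simp
      ring
    rw [e] at h1
    have : 0 ≤ ‖z - w‖ / (‖z‖ * ‖w‖) := by positivity
    show |KK z 0 - KK w 0| ≤ _
    linarith
  · have hu : (‖z‖ ^ 2)⁻¹ • z ≠ 0 := smul_ne_zero (by positivity) hz
    have hv : (‖w‖ ^ 2)⁻¹ • w ≠ 0 := smul_ne_zero (by positivity) hw
    have h1 := h_lip hu hv
    rw [hid] at h1
    have e : ∀ x : E, x ≠ 0 → PP 1 ((‖x‖ ^ 2)⁻¹ • x) / ‖(‖x‖ ^ 2)⁻¹ • x‖ = KK x 1 := by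
      intro x hx
      have hx' := norm_pos_iff.2 hx
      unfold KK
      rw [PP_smul, norm_smul, Real.norm_of_nonneg (by positivity)]
      unfold dg
      simp only [one_ne_zero, if_false]
      field_simp
      ring
    rw [e z hz, e w hw] at h1
    exact h1

/-- integrability of the kernel against continuous compactly supported functions -/
lemma KK_bd {ψ : E → ℝ} {B R : ℝ} (hB : ∀ y, |ψ y| ≤ B) (hR : ∀ y, R < ‖y‖ → ψ y = 0)
    (x y : E) (j : Fin 2) :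
    |KK (x - y) j * ψ y| ≤ B * (1 + (‖x‖ + R) ^ 2) * (‖x - y‖⁻¹ * (1 + ‖x - y‖ ^ 2)⁻¹) := by
  have hB0 : 0 ≤ B := (abs_nonneg _).trans (hB 0)
  rw [abs_mul]
  by_cases hy : R < ‖y‖
  · rw [hR y hy, abs_zero, mul_zero]; positivity
  · have h1 : ‖x - y‖ ≤ ‖x‖ + R := by
      have := norm_sub_le x y
      linarith
    have h2 : 1 ≤ (1 + (‖x‖ + R) ^ 2) * (1 + ‖x - y‖ ^ 2)⁻¹ := by
      rw [← div_eq_mul_inv, one_le_div (by positivity)]
      gcongr
    calc |KK (x - y) j| * |ψ y| ≤ ‖x - y‖⁻¹ * B := by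
          gcongr
          · exact KK_abs _ _
          · exact hB y
      _ = ‖x - y‖⁻¹ * B * 1 := (mul_one _).symm
      _ ≤ ‖x - y‖⁻¹ * B * ((1 + (‖x‖ + R) ^ 2) * (1 + ‖x - y‖ ^ 2)⁻¹) := by gcongr
      _ = _ := by ring

lemma base_tr (x : E) : Integrable (fun y : E => ‖x - y‖⁻¹ * (1 + ‖x - y‖ ^ 2)⁻¹) :=
  base_int.comp_sub_left x

lemma KK_int {ψ : E → ℝ} (hc : Continuous ψ) (hs : HasCompactSupport ψ) (x : E) (j : Fin 2) :
    Integrable (fun y => KK (x - y) j * ψ y) := by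
  obtain ⟨B, hB⟩ := hs.exists_bound_of_continuous hc
  obtain ⟨R, hR⟩ := hs.isBounded.subset_closedBall (0 : E)
  have hB' : ∀ y, |ψ y| ≤ B := fun y => by rw [← Real.norm_eq_abs]; exact hB y
  have hR' : ∀ y, R < ‖y‖ → ψ y = 0 := by
    intro y hy
    by_contra h
    have := hR (subset_tsupport ψ h)
    rw [mem_closedBall_zero_iff] at this
    linarith
  refine ((base_tr x).const_mul (B * (1 + (‖x‖ + R) ^ 2))).mono' ?_ (ae_of_all _ fun y => ?_)
  · exact ((KK_meas j).comp (measurable_const.sub measurable_id)).aestronglyMeasurable.mul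
      hc.aestronglyMeasurable
  · rw [Real.norm_eq_abs]
    exact KK_bd hB' hR' x y j

/-- a fixed mollifier -/
structure Moll (φ : E → ℝ) : Prop where
  cont : Continuous φ
  nn : ∀ y, 0 ≤ φ y
  int1 : ∫ y, φ y = 1
  sup : ∀ y, 1 < ‖y‖ → φ y = 0

lemma Moll.cs {φ : E → ℝ} (h : Moll φ) : HasCompactSupport φ := by
  refine HasCompactSupport.intro (isCompact_closedBall (0 : E) 1) fun y hy => ?_
  rw [mem_closedBall_zero_iff, not_le] at hy
  exact h.sup y hy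

lemma Moll.int {φ : E → ℝ} (h : Moll φ) : Integrable φ := h.cont.integrable_of_hasCompactSupport h.cs

/-- the mollified kernel -/
noncomputable def UU (φ : E → ℝ) (x : E) (j : Fin 2) : ℝ := ∫ y, KK (x - y) j * φ y

lemma UU_meas {φ : E → ℝ} (h : Moll φ) (j : Fin 2) : Measurable fun x => UU φ x j := by
  have h1 : StronglyMeasurable (Function.uncurry fun (x y : E) => KK (x - y) j * φ y) := by
    have h2 : Measurable fun p : E × E => KK (p.1 - p.2) j * φ p.2 :=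
      ((KK_meas j).comp (measurable_fst.sub measurable_snd)).mul
        (h.cont.measurable.comp measurable_snd)
    exact h2.stronglyMeasurable
  exact (h1.integral_prod_right (ν := volume)).measurable

lemma UU_asym {φ : E → ℝ} (h : Moll φ) (j : Fin 2) {x : E} (hx : 2 ≤ ‖x‖) :
    |UU φ x j - KK x j| ≤ 6 / ‖x‖ ^ 2 := by
  have hx0 : x ≠ 0 := norm_pos_iff.1 (by linarith)
  have e : UU φ x j - KK x j = ∫ y, (KK (x - y) j - KK x j) * φ y := by
    unfold UU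
    have e1 : KK x j = ∫ y, KK x j * φ y := by rw [integral_const_mul, h.int1, mul_one]
    conv_lhs => rw [e1]
    rw [← integral_sub (KK_int h.cont h.cs x j) (h.int.const_mul _)]
    refine integral_congr_ae (ae_of_all _ fun y => ?_)
    show KK (x - y) j * φ y - KK x j * φ y = _
    ring
  rw [e]
  have h1 : ‖∫ y, (KK (x - y) j - KK x j) * φ y‖ ≤ ∫ y, 6 / ‖x‖ ^ 2 * φ y := by
    refine norm_integral_le_of_norm_le (h.int.const_mul _) (ae_of_all _ fun y => ?_)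
    rw [norm_mul, Real.norm_of_nonneg (h.nn y), Real.norm_eq_abs]
    by_cases hy : 1 < ‖y‖
    · rw [h.sup y hy, mul_zero, mul_zero]
    · have hy' : ‖y‖ ≤ 1 := not_lt.1 hy
      have hn : ‖x‖ / 2 ≤ ‖x - y‖ := by
        have := norm_sub_norm_le x y
        linarith
      have hne : x - y ≠ 0 := norm_pos_iff.1 (by linarith)
      have h2 := KK_diff hne hx0 j
      have e2 : x - y - x = -y := by abel
      rw [e2, norm_neg] at h2
      gcongr
      · exact h.nn y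
      refine h2.trans ?_
      have h3 : ‖y‖ / (‖x - y‖ * ‖x‖) ≤ 1 / (‖x‖ / 2 * ‖x‖) := by
        have : 0 < ‖x‖ := by linarith
        gcongr
      calc 3 * (‖y‖ / (‖x - y‖ * ‖x‖)) ≤ 3 * (1 / (‖x‖ / 2 * ‖x‖)) := by gcongr
        _ = 6 / ‖x‖ ^ 2 := by field_simp; norm_num
  rw [integral_const_mul, h.int1, mul_one, Real.norm_eq_abs] at h1
  exact h1

lemma UU_near {φ : E → ℝ} (h : Moll φ) {M : ℝ} (hM : ∀ y, |φ y| ≤ M) (j : Fin 2) {x : E}
    (hx : ‖x‖ ≤ 2) :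
    |UU φ x j| ≤ M * 10 * ∫ y : E, ‖y‖⁻¹ * (1 + ‖y‖ ^ 2)⁻¹ := by
  have hM0 : 0 ≤ M := (abs_nonneg _).trans (hM 0)
  have h1 : ‖∫ y, KK (x - y) j * φ y‖ ≤ ∫ y, M * 10 * (‖x - y‖⁻¹ * (1 + ‖x - y‖ ^ 2)⁻¹) := by
    refine norm_integral_le_of_norm_le ((base_tr x).const_mul _) (ae_of_all _ fun y => ?_)
    rw [Real.norm_eq_abs]
    refine (KK_bd hM h.sup x y j).trans ?_
    have h0 := norm_nonneg x
    have h2 : 1 + (‖x‖ + 1) ^ 2 ≤ 10 := by nlinarith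
    have h3 : 0 ≤ ‖x - y‖⁻¹ * (1 + ‖x - y‖ ^ 2)⁻¹ := by positivity
    exact mul_le_mul_of_nonneg_right (mul_le_mul_of_nonneg_left h2 hM0) h3
  rw [integral_const_mul, integral_sub_left_eq_self (fun y : E => ‖y‖⁻¹ * (1 + ‖y‖ ^ 2)⁻¹) volume x,
    Real.norm_eq_abs] at h1
  exact h1

lemma UU_far {φ : E → ℝ} (h : Moll φ) (j : Fin 2) {x : E} (hx : 2 ≤ ‖x‖) : |UU φ x j| ≤ 2 := by
  have h1 := UU_asym h j hx
  have h2 := KK_abs x j
  have h3 : ‖x‖⁻¹ ≤ 1 / 2 := by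
    rw [one_div]
    exact inv_anti₀ (by norm_num) hx
  have h4 : 6 / ‖x‖ ^ 2 ≤ 3 / 2 := by
    rw [div_le_iff₀ (by positivity)]
    nlinarith
  have h5 : |UU φ x j| ≤ |UU φ x j - KK x j| + |KK x j| := by
    have := abs_add_le (UU φ x j - KK x j) (KK x j)
    rwa [sub_add_cancel] at this
  linarith

lemma UU_bdd {φ : E → ℝ} (h : Moll φ) : ∃ B : ℝ, 1 ≤ B ∧ ∀ x j, |UU φ x j| ≤ B := by
  obtain ⟨M, hM⟩ := h.cs.exists_bound_of_continuous h.cont
  have hM' : ∀ y, |φ y| ≤ M := fun y => by rw [← Real.norm_eq_abs]; exact hM y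
  have hM0 : 0 ≤ M := (abs_nonneg _).trans (hM' 0)
  have hI0' : 0 ≤ ∫ y : E, ‖y‖⁻¹ * (1 + ‖y‖ ^ 2)⁻¹ := integral_nonneg fun y => by positivity
  have hI1 : 0 ≤ M * 10 * ∫ y : E, ‖y‖⁻¹ * (1 + ‖y‖ ^ 2)⁻¹ :=
    mul_nonneg (mul_nonneg hM0 (by norm_num)) hI0'
  refine ⟨(M * 10 * ∫ y : E, ‖y‖⁻¹ * (1 + ‖y‖ ^ 2)⁻¹) + 2, by linarith, fun x j => ?_⟩
  rcases le_total 2 ‖x‖ with hx | hx
  · have := UU_far h j hx
    linarith
  · have := UU_near h hM' j hx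
    linarith

end Pool.Agent.R247.MZ
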