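import Pool.Agent.R247.MZ.C

/-! The blow up of the nonlinear integral. -/

set_option autoImplicit false

open MeasureTheory Set Filter Topology Metric
open scoped Real ENNReal

namespace Pool.Agent.R247.MZ

/-- the nonlinearity -/
noncomputable def Ph (y : Fin 2 → ℝ) : ℝ := (max 0 (y 1 - |y 0|)) ^ 2

/-- the test functions -/
noncomputable def ff (φ : E → ℝ) (n : ℝ) (y : E) : ℝ := φ y - n ^ 2 * φ (n • y)

/-- their potentials -/
noncomputable def Gn (φ : E → ℝ) (n : ℝ) (x : E) (j : Fin 2) : ℝ := UU φ x j - n * UU φ (n • x) j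

lemma scal {n : ℝ} (hn : 0 < n) (g : E → ℝ) : ∫ y, g (n • y) = (n ^ 2)⁻¹ * ∫ y, g y := by
  have h := Measure.integral_comp_smul (volume : Measure E) g n
  have hd : Module.finrank ℝ E = 2 := by simp
  rw [hd, abs_of_pos (by positivity), smul_eq_mul] at h
  exact h

lemma ff_mean {φ : E → ℝ} (h : Moll φ) {n : ℝ} (hn : 0 < n) : ∫ y, ff φ n y = 0 := by
  unfold ff
  have h1 : Integrable fun y => n ^ 2 * φ (n • y) := (h.int.comp_smul hn.ne').const_mul _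
  rw [integral_sub h.int h1, integral_const_mul, scal hn, h.int1]
  field_simp
  ring

lemma ff_abs {φ : E → ℝ} (h : Moll φ) {n : ℝ} (hn : 0 < n) : ∫ y, |ff φ n y| ≤ 2 := by
  have h1 : Integrable fun y => n ^ 2 * φ (n • y) := (h.int.comp_smul hn.ne').const_mul _
  have h2 : ∫ y, |ff φ n y| ≤ ∫ y, (φ y + n ^ 2 * φ (n • y)) := by
    refine integral_mono_of_nonneg (ae_of_all _ fun y => abs_nonneg _) (h.int.add h1)
      (ae_of_all _ fun y => ?_)
    show |φ y - n ^ 2 * φ (n • y)| ≤ φ y + n ^ 2 * φ (n • y)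
    have a1 := h.nn y
    have a2 := h.nn (n • y)
    have a3 : 0 ≤ n ^ 2 * φ (n • y) := by positivity
    rw [abs_le]
    constructor <;> linarith
  rw [integral_add h.int h1, integral_const_mul, scal hn, h.int1] at h2
  refine h2.trans (le_of_eq ?_)
  field_simp
  norm_num

lemma pot {φ : E → ℝ} (h : Moll φ) {n : ℝ} (hn : 0 < n) (x : E) (j : Fin 2) :
    ∫ y, KK (x - y) j * ff φ n y = Gn φ n x j := by
  have e1 : ∀ y, KK (x - y) j * (n ^ 2 * φ (n • y)) = n ^ 3 * (KK (n • x - n • y) j * φ (n • y)) := by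
    intro y
    have : n • x - n • y = n • (x - y) := (smul_sub n x y).symm
    rw [this, KK_hom hn]
    field_simp
  have h2 : Integrable fun y => n ^ 3 * (KK (n • x - n • y) j * φ (n • y)) :=
    ((KK_int h.cont h.cs (n • x) j).comp_smul hn.ne').const_mul (n ^ 3)
  have h3 : ∫ y, n ^ 3 * (KK (n • x - n • y) j * φ (n • y)) = n * UU φ (n • x) j := by
    rw [integral_const_mul, scal hn (fun y => KK (n • x - y) j * φ y)]
    unfold UU
    field_simp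
  unfold Gn
  rw [← h3]
  conv_rhs => rw [UU]
  rw [← integral_sub (KK_int h.cont h.cs x j) h2]
  refine integral_congr_ae (ae_of_all _ fun y => ?_)
  show KK (x - y) j * (φ y - n ^ 2 * φ (n • y)) = KK (x - y) j * φ y - _
  rw [mul_sub, e1]

lemma Gn_far {φ : E → ℝ} (h : Moll φ) {n : ℝ} (hn : 1 ≤ n) (j : Fin 2) {x : E} (hx : 2 ≤ ‖x‖) :
    |Gn φ n x j| ≤ 12 / ‖x‖ ^ 2 := by
  have hn0 : 0 < n := by linarith
  have hx0 : 0 < ‖x‖ := by linarith
  have h1 := UU_asym h j hx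
  have hnx : ‖n • x‖ = n * ‖x‖ := by rw [norm_smul, Real.norm_of_nonneg hn0.le]
  have h2 := UU_asym h j (x := n • x) (by rw [hnx]; nlinarith)
  rw [hnx, KK_hom hn0] at h2
  have h3 : |n * UU φ (n • x) j - KK x j| ≤ 6 / ‖x‖ ^ 2 := by
    have e : n * UU φ (n • x) j - KK x j = n * (UU φ (n • x) j - n⁻¹ * KK x j) := by
      field_simp
    rw [e, abs_mul, abs_of_pos hn0]
    calc n * |UU φ (n • x) j - n⁻¹ * KK x j| ≤ n * (6 / (n * ‖x‖) ^ 2) := by gcongr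
      _ = (6 / ‖x‖ ^ 2) / n := by field_simp
      _ ≤ 6 / ‖x‖ ^ 2 := div_le_self (by positivity) hn
  have e : Gn φ n x j = (UU φ x j - KK x j) - (n * UU φ (n • x) j - KK x j) := by
    unfold Gn; ring
  rw [e]
  refine (abs_sub _ _).trans ?_
  have e2 : 12 / ‖x‖ ^ 2 = 6 / ‖x‖ ^ 2 + 6 / ‖x‖ ^ 2 := by ring
  linarith

lemma Gn_bdd {φ : E → ℝ} {B : ℝ} (hB : ∀ x j, |UU φ x j| ≤ B) {n : ℝ} (hn : 0 < n) (x : E)
    (j : Fin 2) : |Gn φ n x j| ≤ B * (1 + n) := by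
  unfold Gn
  refine (abs_sub _ _).trans ?_
  rw [abs_mul, abs_of_pos hn]
  have h1 := hB x j
  have h2 := mul_le_mul_of_nonneg_left (hB (n • x) j) hn.le
  linarith

lemma Gn_meas {φ : E → ℝ} (h : Moll φ) (n : ℝ) (j : Fin 2) : Measurable fun x => Gn φ n x j := by
  unfold Gn
  exact (UU_meas h j).sub (((UU_meas h j).comp (measurable_const_smul n)).const_mul n)

lemma Ph_nonneg (y : Fin 2 → ℝ) : 0 ≤ Ph y := by unfold Ph; positivity

lemma Ph_le (y : Fin 2 → ℝ) : Ph y ≤ (y 1) ^ 2 := by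
  unfold Ph
  have h1 : max 0 (y 1 - |y 0|) ≤ |y 1| := by
    refine max_le (abs_nonneg _) ?_
    have := le_abs_self (y 1)
    have := abs_nonneg (y 0)
    linarith
  rw [← sq_abs (y 1)]
  gcongr

lemma Ph_cont : Continuous Ph := by
  unfold Ph
  fun_prop

lemma dec4_int : Integrable (fun x : E => ((1 + ‖x‖ ^ 2) ^ 2)⁻¹) := by
  have h := integrable_rpow_neg_one_add_norm_sq (E := E) (μ := volume) (r := 4) (by
    rw [finrank_euclideanSpace_fin]; norm_num)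
  refine h.congr (ae_of_all _ fun x => ?_)
  show (1 + ‖x‖ ^ 2) ^ (-(4 : ℝ) / 2) = _
  have h0 : (0 : ℝ) ≤ 1 + ‖x‖ ^ 2 := by positivity
  have e : (-(4 : ℝ) / 2) = -((2 : ℕ) : ℝ) := by norm_num
  rw [e, Real.rpow_neg h0, Real.rpow_natCast]

lemma Ph_int {φ : E → ℝ} (h : Moll φ) {n : ℝ} (hn : 1 ≤ n) :
    Integrable fun x => Ph (fun j => Gn φ n x j) := by
  obtain ⟨B, hB1, hB⟩ := UU_bdd h
  have hn0 : 0 < n := by linarith
  refine (dec4_int.const_mul (225 + 25 * (B * (1 + n)) ^ 2)).mono' ?_ (ae_of_all _ fun x => ?_)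
  · have : Measurable fun x => (fun j => Gn φ n x j) := measurable_pi_iff.2 fun j => Gn_meas h n j
    exact (Ph_cont.measurable.comp this).aestronglyMeasurable
  · rw [Real.norm_of_nonneg (Ph_nonneg _)]
    refine (Ph_le _).trans ?_
    show (Gn φ n x 1) ^ 2 ≤ _
    rw [← sq_abs]
    rcases le_total 2 ‖x‖ with hx | hx
    · have h1 := Gn_far h hn 1 hx
      have hx0 : 0 < ‖x‖ := by linarith
      have h2 : 12 / ‖x‖ ^ 2 ≤ 15 / (1 + ‖x‖ ^ 2) := by
        rw [div_le_div_iff₀ (by positivity) (by positivity)]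
        nlinarith
      calc |Gn φ n x 1| ^ 2 ≤ (15 / (1 + ‖x‖ ^ 2)) ^ 2 := by
            have := h1.trans h2
            gcongr
        _ = 225 * ((1 + ‖x‖ ^ 2) ^ 2)⁻¹ := by
            rw [div_pow]; norm_num; rfl
        _ ≤ _ := by
            have : 0 ≤ 25 * (B * (1 + n)) ^ 2 * ((1 + ‖x‖ ^ 2) ^ 2)⁻¹ := by positivity
            linarith
    · have h1 := Gn_bdd hB hn0 x 1
      have h2 : 1 ≤ 25 * ((1 + ‖x‖ ^ 2) ^ 2)⁻¹ := by
        rw [← div_eq_mul_inv, one_le_div (by positivity)]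
        have := norm_nonneg x
        have h3 : ‖x‖ ^ 2 ≤ 4 := by nlinarith
        have h4 : 0 ≤ ‖x‖ ^ 2 := by positivity
        nlinarith
      have h3 : 0 ≤ (B * (1 + n)) ^ 2 := by positivity
      calc |Gn φ n x 1| ^ 2 ≤ (B * (1 + n)) ^ 2 := by gcongr
        _ = (B * (1 + n)) ^ 2 * 1 := (mul_one _).symm
        _ ≤ (B * (1 + n)) ^ 2 * (25 * ((1 + ‖x‖ ^ 2) ^ 2)⁻¹) := by gcongr
        _ ≤ _ := by
            have : 0 ≤ 225 * ((1 + ‖x‖ ^ 2) ^ 2)⁻¹ := by positivity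
            linarith

/-- the lower bound near the origin -/
lemma Ph_low {φ : E → ℝ} (h : Moll φ) {B : ℝ} (hB : ∀ x j, |UU φ x j| ≤ B) {n : ℝ}
    {x : E} (hx : x ≠ 0) (hx0 : |x 0| ≤ ‖x‖ / 4) (hx1 : 16 * B * ‖x‖ ≤ 1) (hn : 96 ≤ n * ‖x‖) :
    1 / (16 * ‖x‖ ^ 2) ≤ Ph (fun j => Gn φ n x j) := by
  have hr := norm_pos_iff.2 hx
  have hn0 : 0 < n := by
    by_contra hc
    have : n * ‖x‖ ≤ 0 := mul_nonpos_of_nonpos_of_nonneg (not_lt.1 hc) hr.le
    linarith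
  have hnx : ‖n • x‖ = n * ‖x‖ := by rw [norm_smul, Real.norm_of_nonneg hn0.le]
  have h3 : ∀ j, |n * UU φ (n • x) j - KK x j| ≤ 1 / (16 * ‖x‖) := by
    intro j
    have h2 := UU_asym h j (x := n • x) (by rw [hnx]; linarith)
    rw [hnx, KK_hom hn0] at h2
    have e : n * UU φ (n • x) j - KK x j = n * (UU φ (n • x) j - n⁻¹ * KK x j) := by
      field_simp
    rw [e, abs_mul, abs_of_pos hn0]
    calc n * |UU φ (n • x) j - n⁻¹ * KK x j| ≤ n * (6 / (n * ‖x‖) ^ 2) := by gcongr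
      _ = 6 / (n * ‖x‖) * (1 / ‖x‖) := by field_simp
      _ ≤ 6 / 96 * (1 / ‖x‖) := by gcongr
      _ = 1 / (16 * ‖x‖) := by field_simp; norm_num
  have h4 : B ≤ 1 / (16 * ‖x‖) := by
    rw [le_div_iff₀ (by positivity)]
    linarith
  have hu : ∀ j, |Gn φ n x j + KK x j| ≤ 1 / (8 * ‖x‖) := by
    intro j
    have e : Gn φ n x j + KK x j = UU φ x j - (n * UU φ (n • x) j - KK x j) := by
      unfold Gn; ring
    rw [e]
    refine (abs_sub _ _).trans ?_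
    have a1 := hB x j
    have a2 := h3 j
    have e2 : 1 / (8 * ‖x‖) = 1 / (16 * ‖x‖) + 1 / (16 * ‖x‖) := by field_simp; norm_num
    linarith
  have hk0 : |KK x 0| ≤ 1 / (4 * ‖x‖) := by
    unfold KK PP dg
    simp only [if_true]
    rw [abs_div, abs_of_pos (by positivity : (0 : ℝ) < ‖x‖ ^ (1 + 1))]
    rw [div_le_div_iff₀ (by positivity) (by positivity)]
    have : |x 0| * (4 * ‖x‖) ≤ ‖x‖ / 4 * (4 * ‖x‖) := by gcongr
    refine this.trans (le_of_eq ?_)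
    ring
  have hk1 : KK x 1 ≤ -(7 / 8) / ‖x‖ := by
    unfold KK PP dg
    simp only [one_ne_zero, if_false]
    rw [div_le_div_iff₀ (by positivity) hr]
    have h5 := normsq x
    have h6 : x 0 ^ 2 ≤ ‖x‖ ^ 2 / 16 := by
      rw [← sq_abs]
      calc |x 0| ^ 2 ≤ (‖x‖ / 4) ^ 2 := by gcongr
        _ = _ := by ring
    have h7 : x 0 ^ 2 - x 1 ^ 2 ≤ -(7 / 8) * ‖x‖ ^ 2 := by linarith
    calc (x 0 ^ 2 - x 1 ^ 2) * ‖x‖ ≤ (-(7 / 8) * ‖x‖ ^ 2) * ‖x‖ := by gcongr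
      _ = _ := by ring
  have u0 := abs_le.1 (hu 0)
  have u1 := abs_le.1 (hu 1)
  have hg0 : |Gn φ n x 0| ≤ 3 / (8 * ‖x‖) := by
    have e : Gn φ n x 0 = (Gn φ n x 0 + KK x 0) - KK x 0 := by ring
    rw [e]
    refine (abs_sub _ _).trans ?_
    have e2 : 3 / (8 * ‖x‖) = 1 / (8 * ‖x‖) + 1 / (4 * ‖x‖) := by field_simp; norm_num
    rw [e2]
    exact add_le_add (hu 0) hk0
  have hg1 : 3 / (4 * ‖x‖) ≤ Gn φ n x 1 := by
    have e2 : 3 / (4 * ‖x‖) = -(-(7 / 8) / ‖x‖) - 1 / (8 * ‖x‖) := by field_simp; norm_num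
    rw [e2]
    linarith [u1.1]
  have hg : 1 / (4 * ‖x‖) ≤ Gn φ n x 1 - |Gn φ n x 0| := by
    have e2 : 1 / (4 * ‖x‖) ≤ 3 / (4 * ‖x‖) - 3 / (8 * ‖x‖) := by
      have : 3 / (4 * ‖x‖) - 3 / (8 * ‖x‖) = 3 / (8 * ‖x‖) := by field_simp; norm_num
      rw [this, div_le_div_iff₀ (by positivity) (by positivity)]
      nlinarith
    linarith
  unfold Ph
  show _ ≤ (max 0 (Gn φ n x 1 - |Gn φ n x 0|)) ^ 2
  calc 1 / (16 * ‖x‖ ^ 2) = (1 / (4 * ‖x‖)) ^ 2 := by rw [div_pow, mul_pow]; norm_num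
    _ ≤ (max 0 (Gn φ n x 1 - |Gn φ n x 0|)) ^ 2 := by
        gcongr
        exact hg.trans (le_max_right _ _)

/-- the basic sector -/
def S0 : Set E := {x | 1 < ‖x‖ ∧ ‖x‖ < 2 ∧ |x 0| < ‖x‖ / 4}

lemma S0_open : IsOpen S0 := by
  have h1 : IsOpen {x : E | 1 < ‖x‖} := isOpen_lt continuous_const continuous_norm
  have h2 : IsOpen {x : E | ‖x‖ < 2} := isOpen_lt continuous_norm continuous_const
  have h3 : IsOpen {x : E | |x 0| < ‖x‖ / 4} := isOpen_lt (by fun_prop) (by fun_prop)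
  exact h1.inter (h2.inter h3)

lemma S0_fin : volume S0 ≠ ⊤ := by
  refine ne_top_of_le_ne_top (measure_ball_lt_top (x := (0 : E)) (r := 2)).ne (measure_mono ?_)
  intro x hx
  rw [mem_ball_zero_iff]
  exact hx.2.1

lemma S0_pos : 0 < (volume : Measure E).real S0 := by
  have hne : S0.Nonempty := by
    refine ⟨(3 / 2 : ℝ) • ev 1, ?_⟩
    have h1 : ‖(3 / 2 : ℝ) • ev 1‖ = 3 / 2 := by
      rw [norm_smul]
      have : ‖ev 1‖ = 1 := by simp [ev]
      rw [this]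
      norm_num
    refine ⟨?_, ?_, ?_⟩
    · rw [h1]; norm_num
    · rw [h1]; norm_num
    · rw [h1, PiLp.smul_apply, ev_apply]
      simp
  have h2 : 0 < volume S0 := S0_open.measure_pos volume hne
  exact ENNReal.toReal_pos h2.ne' S0_fin

/-- the dilated sectors -/
def Sk (k : ℕ) : Set E := {x | (2 : ℝ) ^ k • x ∈ S0}

lemma Sk_meas (k : ℕ) : MeasurableSet (Sk k) :=
  (measurable_const_smul ((2 : ℝ) ^ k)) S0_open.measurableSet

lemma Sk_vol (k : ℕ) : (volume : Measure E).real (Sk k) = ((4 : ℝ) ^ k)⁻¹ * (volume : Measure E).real S0 := by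
  have h := Measure.addHaar_preimage_smul (volume : Measure E) (r := (2 : ℝ) ^ k) (by positivity) S0
  have hd : Module.finrank ℝ E = 2 := by simp
  rw [hd] at h
  unfold Measure.real
  have e : Sk k = (fun x => (2 : ℝ) ^ k • x) ⁻¹' S0 := rfl
  rw [e]
  show (volume ((fun x : E => (2 : ℝ) ^ k • x) ⁻¹' S0)).toReal = _
  rw [h, ENNReal.toReal_mul, ENNReal.toReal_ofReal (abs_nonneg _), abs_of_pos (by positivity)]
  congr 2
  rw [← pow_mul, mul_comm, pow_mul]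
  norm_num

lemma Sk_norm {k : ℕ} {x : E} (hx : x ∈ Sk k) : 1 < 2 ^ k * ‖x‖ ∧ 2 ^ k * ‖x‖ < 2 ∧ |x 0| ≤ ‖x‖ / 4 := by
  obtain ⟨h1, h2, h3⟩ := hx
  have e : ‖(2 : ℝ) ^ k • x‖ = 2 ^ k * ‖x‖ := by rw [norm_smul, Real.norm_of_nonneg (by positivity)]
  rw [e] at h1 h2 h3
  refine ⟨h1, h2, ?_⟩
  rw [PiLp.smul_apply, smul_eq_mul, abs_mul, abs_of_pos (by positivity)] at h3
  have hp : (0 : ℝ) < 2 ^ k := by positivity
  have : (2 : ℝ) ^ k * |x 0| ≤ 2 ^ k * (‖x‖ / 4) := by linarith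
  exact le_of_mul_le_mul_left this hp

lemma Sk_disj {k l : ℕ} (hkl : k < l) : Disjoint (Sk k) (Sk l) := by
  rw [Set.disjoint_left]
  intro x hx hx'
  obtain ⟨h1, h2, -⟩ := Sk_norm hx
  obtain ⟨h3, h4, -⟩ := Sk_norm hx'
  have h5 : (2 : ℝ) * 2 ^ k ≤ 2 ^ l := by
    rw [← pow_succ']
    exact pow_le_pow_right₀ (by norm_num) hkl
  have h6 : (2 : ℝ) * 2 ^ k * ‖x‖ ≤ 2 ^ l * ‖x‖ := by gcongr
  linarith

theorem blow {φ : E → ℝ} (h : Moll φ) (N : ℕ) :
    ∃ n : ℝ, 1 ≤ n ∧ (N : ℝ) * ((volume : Measure E).real S0 / 64) ≤ ∫ x, Ph (fun j => Gn φ n x j) := by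
  obtain ⟨B, hB1, hB⟩ := UU_bdd h
  obtain ⟨k0, hk0⟩ := pow_unbounded_of_one_lt (32 * B) (by norm_num : (1 : ℝ) < 2)
  have hn1 : (1 : ℝ) ≤ 96 * 2 ^ (k0 + N) := by
    have : (1 : ℝ) ≤ 2 ^ (k0 + N) := one_le_pow₀ (by norm_num)
    linarith
  refine ⟨96 * 2 ^ (k0 + N), hn1, ?_⟩
  have hint := Ph_int h hn1
  have hnn : ∀ x, 0 ≤ Ph (fun j => Gn φ (96 * 2 ^ (k0 + N)) x j) := fun x => Ph_nonneg _
  have hlow : ∀ k ∈ Finset.Ico k0 (k0 + N), (volume : Measure E).real S0 / 64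
      ≤ ∫ x in Sk k, Ph (fun j => Gn φ (96 * 2 ^ (k0 + N)) x j) := by
    intro k hk
    rw [Finset.mem_Ico] at hk
    have hfin : volume (Sk k) ≠ ⊤ := by
      intro hc
      have h1 := Sk_vol k
      have h2 : 0 < ((4 : ℝ) ^ k)⁻¹ * (volume : Measure E).real S0 := mul_pos (by positivity) S0_pos
      rw [← h1] at h2
      unfold Measure.real at h2
      rw [hc] at h2
      simp at h2
    have h1 : ∫ x in Sk k, (4 : ℝ) ^ k / 64
        ≤ ∫ x in Sk k, Ph (fun j => Gn φ (96 * 2 ^ (k0 + N)) x j) := by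
      refine setIntegral_mono_on ((integrableOn_const_iff).2 (Or.inr hfin.lt_top)) hint.integrableOn
        (Sk_meas k) fun x hx => ?_
      obtain ⟨a1, a2, a3⟩ := Sk_norm hx
      have hr : 0 < ‖x‖ := by
        by_contra hc
        have : ‖x‖ = 0 := le_antisymm (not_lt.1 hc) (norm_nonneg _)
        rw [this] at a1
        norm_num at a1
      have b1 : (2 : ℝ) ^ k0 ≤ 2 ^ k := pow_le_pow_right₀ (by norm_num) hk.1
      have b2 : (2 : ℝ) ^ k ≤ 2 ^ (k0 + N) := pow_le_pow_right₀ (by norm_num) hk.2.le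
      refine le_trans ?_ (Ph_low h hB (norm_pos_iff.1 hr) a3 ?_ ?_)
      · rw [div_le_div_iff₀ (by norm_num) (by positivity)]
        have e : (4 : ℝ) ^ k = 2 ^ k * 2 ^ k := by
          rw [← mul_pow]; norm_num
        rw [e]
        have a4 : (2 ^ k * ‖x‖) ^ 2 ≤ 2 ^ 2 := by gcongr
        nlinarith
      · have c1 : 32 * B * ‖x‖ ≤ 2 ^ k * ‖x‖ := by
          have := hk0.le.trans b1
          gcongr
        linarith
      · have c1 : 2 ^ k * ‖x‖ ≤ 2 ^ (k0 + N) * ‖x‖ := by gcongr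
        linarith
    refine le_trans (le_of_eq ?_) h1
    rw [setIntegral_const, Sk_vol, smul_eq_mul]
    field_simp
  have hU := integral_biUnion_finset (μ := (volume : Measure E)) (Finset.Ico k0 (k0 + N)) (s := Sk)
    (f := fun x => Ph (fun j => Gn φ (96 * 2 ^ (k0 + N)) x j)) (fun k _ => Sk_meas k) (by
      intro k _ l _ hkl
      rcases lt_or_gt_of_ne hkl with h1 | h1
      · exact Sk_disj h1
      · exact (Sk_disj h1).symm) (fun k _ => hint.integrableOn)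
  calc (N : ℝ) * ((volume : Measure E).real S0 / 64)
      = ∑ k ∈ Finset.Ico k0 (k0 + N), (volume : Measure E).real S0 / 64 := by
        rw [Finset.sum_const, Nat.card_Ico, nsmul_eq_mul]
        congr 2
        omega
    _ ≤ ∑ k ∈ Finset.Ico k0 (k0 + N), ∫ x in Sk k, Ph (fun j => Gn φ (96 * 2 ^ (k0 + N)) x j) :=
        Finset.sum_le_sum hlow
    _ = ∫ x in ⋃ k ∈ Finset.Ico k0 (k0 + N), Sk k, Ph (fun j => Gn φ (96 * 2 ^ (k0 + N)) x j) := hU.symm
    _ ≤ ∫ x, Ph (fun j => Gn φ (96 * 2 ^ (k0 + N)) x j) :=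
        setIntegral_le_integral hint (ae_of_all _ hnn)

end Pool.Agent.R247.MZ
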