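import Pool.Agent.R247.MZ.D

/-! The pieces of the frozen statement. -/

set_option autoImplicit false

open MeasureTheory Set Filter Topology Metric
open scoped Real ENNReal FourierTransform

namespace Pool.Agent.R247.MZ

/-- a smooth mollifier -/
noncomputable def bump : ContDiffBump (0 : E) := ⟨1 / 2, 1, by norm_num, by norm_num⟩

/-- a smooth mollifier -/
noncomputable def mo (y : E) : ℝ := bump.normed volume y

lemma mo_moll : Moll mo where
  cont := bump.continuous_normed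
  nn y := bump.nonneg_normed y
  int1 := bump.integral_normed
  sup y hy := by
    have h := bump.support_normed_eq (μ := (volume : Measure E))
    by_contra hc
    have h1 : y ∈ Function.support (bump.normed (volume : Measure E)) := hc
    rw [h, mem_ball_zero_iff] at h1
    have : bump.rOut = 1 := rfl
    rw [this] at h1
    linarith

lemma mo_smooth : ContDiff ℝ ((⊤ : ℕ∞) : WithTop ℕ∞) mo := bump.contDiff_normed

lemma ff_smooth (n : ℝ) : ContDiff ℝ ((⊤ : ℕ∞) : WithTop ℕ∞) (ff mo n) := by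
  unfold ff
  exact mo_smooth.sub (contDiff_const.mul (mo_smooth.comp (contDiff_const_smul n)))

lemma ff_cs {n : ℝ} (hn : 1 ≤ n) : HasCompactSupport (ff mo n) := by
  refine HasCompactSupport.intro (isCompact_closedBall (0 : E) 1) fun y hy => ?_
  rw [mem_closedBall_zero_iff, not_le] at hy
  unfold ff
  rw [mo_moll.sup y hy, mo_moll.sup (n • y), mul_zero, sub_zero]
  rw [norm_smul, Real.norm_of_nonneg (by linarith)]
  nlinarith

/-- decay of the Fourier transform -/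
lemma fh_dec {f : E → ℝ} (hf : ContDiff ℝ ((⊤ : ℕ∞) : WithTop ℕ∞) f) (hs : HasCompactSupport f) :
    ∃ C, Dec C (fh f) := by
  have hg : ContDiff ℝ ((⊤ : ℕ∞) : WithTop ℕ∞) (fun y => ((f y : ℝ) : ℂ)) :=
    Complex.ofRealCLM.contDiff.comp hf
  have hgs : HasCompactSupport (fun y => ((f y : ℝ) : ℂ)) := by
    exact hs.comp_left (g := fun r : ℝ => (r : ℂ)) (by simp)
  set g : SchwartzMap E ℂ := hgs.toSchwartzMap hg with hgd
  have e : ∀ ξ, fh f ξ = (𝓕 g) ξ := by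
    intro ξ
    rw [SchwartzMap.fourier_coe, Real.fourier_eq']
    unfold fh
    refine integral_congr_ae (ae_of_all _ fun y => ?_)
    show Complex.exp (-(2 * (π : ℂ) * Complex.I * ((inner ℝ y ξ : ℝ) : ℂ))) * ((f y : ℝ) : ℂ)
      = Complex.exp _ • ((f y : ℝ) : ℂ)
    rw [smul_eq_mul]
    have : -(2 * (π : ℂ) * Complex.I * ((inner ℝ y ξ : ℝ) : ℂ))
        = (((-2 * π * inner ℝ y ξ : ℝ) : ℂ) * Complex.I) := by
      push_cast
      ring
    rw [this]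
  obtain ⟨C0, hC0, h0⟩ := (𝓕 g).decay 0 0
  obtain ⟨C2, hC2, h2⟩ := (𝓕 g).decay 2 0
  refine ⟨C0 + C2, fun z => ?_⟩
  rw [← div_eq_mul_inv, le_div_iff₀ (by positivity), e]
  have a0 := h0 z
  have a2 := h2 z
  rw [norm_iteratedFDeriv_zero] at a0 a2
  rw [pow_zero, one_mul] at a0
  linarith

/-- the angular function -/
noncomputable def TT (ξ : E) : Fin 2 → ℝ := ![ξ 0, ξ 1 ^ 2 - ξ 0 ^ 2]

lemma TT0 (ξ : E) : TT ξ 0 = ξ 0 := rfl
lemma TT1 (ξ : E) : TT ξ 1 = ξ 1 ^ 2 - ξ 0 ^ 2 := rfl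

lemma TT_smooth : ContDiff ℝ ((⊤ : ℕ∞) : WithTop ℕ∞) TT := by
  rw [contDiff_pi]
  intro j
  fin_cases j
  · show ContDiff ℝ _ fun ξ : E => ξ 0
    fun_prop
  · show ContDiff ℝ _ fun ξ : E => ξ 1 ^ 2 - ξ 0 ^ 2
    fun_prop

/-- The self-map of the unit sphere induced by a linear isometry. -/
noncomputable def sMap (L : E ≃ₗᵢ[ℝ] E) (x : sphere (0 : E) 1) : sphere (0 : E) 1 :=
  ⟨L x, by simp⟩

theorem sMap_continuous (L : E ≃ₗᵢ[ℝ] E) : Continuous (sMap L) :=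
  Continuous.subtype_mk (L.continuous.comp continuous_subtype_val) _

open scoped Pointwise in
theorem sMap_mp (L : E ≃ₗᵢ[ℝ] E) :
    MeasurePreserving (sMap L) (volume : Measure E).toSphere (volume : Measure E).toSphere := by
  refine ⟨(sMap_continuous L).measurable, ?_⟩
  ext s hs
  rw [Measure.map_apply (sMap_continuous L).measurable hs,
    Measure.toSphere_apply' _ ((sMap_continuous L).measurable hs),
    Measure.toSphere_apply' _ hs]
  congr 1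
  have hset : (Set.Ioo (0 : ℝ) 1 • ((↑) '' (sMap L ⁻¹' s) : Set E))
      = L ⁻¹' (Set.Ioo (0 : ℝ) 1 • ((↑) '' s : Set E)) := by
    ext y
    simp only [Set.mem_smul, Set.mem_image, Set.mem_preimage]
    constructor
    · rintro ⟨c, hc, z, ⟨w, hw, rfl⟩, rfl⟩
      exact ⟨c, hc, L w, ⟨sMap L w, hw, rfl⟩, by simp⟩
    · rintro ⟨c, hc, z, ⟨w, hw, rfl⟩, h⟩
      refine ⟨c, hc, L.symm w, ⟨⟨L.symm w, by simp⟩, ?_, rfl⟩, ?_⟩
      · have : sMap L ⟨L.symm w, by simp⟩ = w := by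
          apply Subtype.ext; simp [sMap]
        rw [this]; exact hw
      · apply L.injective
        rw [← h]; simp
  rw [hset]
  exact L.measurePreserving.measure_preimage_equiv (f := L.toHomeomorph.toMeasurableEquiv) _

theorem integral_sMap (L : E ≃ₗᵢ[ℝ] E) (h : E → ℝ) :
    ∫ x : sphere (0 : E) 1, h (L x) ∂(volume : Measure E).toSphere
      = ∫ x : sphere (0 : E) 1, h x ∂(volume : Measure E).toSphere := by
  have hme : MeasurableEmbedding (sMap L) := by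
    have hc : Function.Injective (sMap L) := by
      intro a b hab
      have := congrArg Subtype.val hab
      exact Subtype.ext (L.injective this)
    exact (sMap_continuous L).isClosedEmbedding hc |>.measurableEmbedding
  exact (sMap_mp L).integral_comp hme (fun x : sphere (0 : E) 1 => h x)

lemma TT_mean : ∫ θ, TT (θ : E) ∂((volume : Measure E).toSphere) = 0 := by
  have hc : ∀ j, Continuous fun θ : sphere (0 : E) 1 => TT (θ : E) j := fun j =>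
    ((continuous_apply j).comp TT_smooth.continuous).comp continuous_subtype_val
  have hi : ∀ j, Integrable (fun θ : sphere (0 : E) 1 => TT (θ : E) j)
      ((volume : Measure E).toSphere) := fun j =>
    (hc j).integrable_of_hasCompactSupport (HasCompactSupport.of_compactSpace _)
  funext j
  rw [eval_integral hi j]
  fin_cases j
  · show ∫ θ : sphere (0 : E) 1, (θ : E) 0 ∂((volume : Measure E).toSphere) = 0
    have h := integral_sMap (LinearIsometryEquiv.neg ℝ) (fun x : E => x 0)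
    simp only [LinearIsometryEquiv.coe_neg, PiLp.neg_apply] at h
    rw [integral_neg] at h
    linarith
  · show ∫ θ : sphere (0 : E) 1, ((θ : E) 1 ^ 2 - (θ : E) 0 ^ 2) ∂((volume : Measure E).toSphere) = 0
    have h := integral_sMap (LinearIsometryEquiv.piLpCongrLeft 2 ℝ ℝ (Equiv.swap (0 : Fin 2) 1))
      (fun x : E => x 1 ^ 2 - x 0 ^ 2)
    have e : ∀ x : E, (LinearIsometryEquiv.piLpCongrLeft 2 ℝ ℝ (Equiv.swap (0 : Fin 2) 1) x) 1 = x 0
        ∧ (LinearIsometryEquiv.piLpCongrLeft 2 ℝ ℝ (Equiv.swap (0 : Fin 2) 1) x) 0 = x 1 := by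
      intro x
      constructor <;> simp [LinearIsometryEquiv.piLpCongrLeft_apply, Equiv.piCongrLeft']
    have h2 : ∫ θ : sphere (0 : E) 1, ((θ : E) 0 ^ 2 - (θ : E) 1 ^ 2) ∂((volume : Measure E).toSphere)
        = ∫ θ : sphere (0 : E) 1, ((θ : E) 1 ^ 2 - (θ : E) 0 ^ 2) ∂((volume : Measure E).toSphere) := by
      rw [← h]
      refine integral_congr_ae (ae_of_all _ fun θ => ?_)
      show _ = (LinearIsometryEquiv.piLpCongrLeft 2 ℝ ℝ (Equiv.swap (0 : Fin 2) 1) (θ : E)) 1 ^ 2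
        - (LinearIsometryEquiv.piLpCongrLeft 2 ℝ ℝ (Equiv.swap (0 : Fin 2) 1) (θ : E)) 0 ^ 2
      rw [(e (θ : E)).1, (e (θ : E)).2]
    have h3 : ∫ θ : sphere (0 : E) 1, ((θ : E) 0 ^ 2 - (θ : E) 1 ^ 2) ∂((volume : Measure E).toSphere)
        = - ∫ θ : sphere (0 : E) 1, ((θ : E) 1 ^ 2 - (θ : E) 0 ^ 2) ∂((volume : Measure E).toSphere) := by
      rw [← integral_neg]
      refine integral_congr_ae (ae_of_all _ fun θ => ?_)
      show _ = -(((θ : E) 1 ^ 2 - (θ : E) 0 ^ 2))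
      ring
    linarith

lemma Ph_lip : LocallyLipschitz Ph := by
  have h1 : LipschitzWith 2 (fun y : Fin 2 → ℝ => max 0 (y 1 - |y 0|)) := by
    refine LipschitzWith.of_dist_le_mul fun y z => ?_
    rw [Real.dist_eq, dist_eq_norm]
    have a1 : |max 0 (y 1 - |y 0|) - max 0 (z 1 - |z 0|)| ≤ |(y 1 - |y 0|) - (z 1 - |z 0|)| := by
      have := abs_max_sub_max_le_abs (y 1 - |y 0|) (z 1 - |z 0|) 0
      rwa [max_comm, max_comm (z 1 - |z 0|)] at this
    have a2 : |(y 1 - |y 0|) - (z 1 - |z 0|)| ≤ |y 1 - z 1| + |y 0 - z 0| := by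
      have e : (y 1 - |y 0|) - (z 1 - |z 0|) = (y 1 - z 1) - (|y 0| - |z 0|) := by ring
      rw [e]
      refine (abs_sub _ _).trans ?_
      have := abs_abs_sub_abs_le (y 0) (z 0)
      linarith
    have a3 : |y 1 - z 1| ≤ ‖y - z‖ := norm_le_pi_norm (y - z) 1
    have a4 : |y 0 - z 0| ≤ ‖y - z‖ := norm_le_pi_norm (y - z) 0
    push_cast
    linarith
  have h2 : LocallyLipschitz (fun r : ℝ => r ^ 2) :=
    (contDiff_id.pow 2 : ContDiff ℝ 1 fun r : ℝ => r ^ 2).locallyLipschitz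
  exact h2.comp h1.locallyLipschitz

lemma Ph_hom {t : ℝ} (ht : 0 < t) (y : Fin 2 → ℝ) : Ph (t • y) = t ^ 2 * Ph y := by
  unfold Ph
  simp only [Pi.smul_apply, smul_eq_mul]
  rw [abs_mul, abs_of_pos ht]
  have : t * y 1 - t * |y 0| = t * (y 1 - |y 0|) := by ring
  rw [this]
  have h2 : max 0 (t * (y 1 - |y 0|)) = t * max 0 (y 1 - |y 0|) := by
    rw [mul_max_of_nonneg _ _ ht.le, mul_zero]
  rw [h2]
  ring

lemma KK_cont : ContinuousOn KK {x | x ≠ 0} := by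
  rw [continuousOn_pi]
  intro j
  unfold KK
  refine (PP_cont j).continuousOn.div (continuous_norm.pow _).continuousOn fun x hx => ?_
  have : 0 < ‖x‖ := norm_pos_iff.2 hx
  positivity

lemma Ph_KK (θ : sphere (0 : E) 1) : Ph (KK (θ : E)) = 0 := by
  have h1 : ‖(θ : E)‖ = 1 := by simp
  have h2 := normsq (θ : E)
  rw [h1] at h2
  have e0 : KK (θ : E) 0 = (θ : E) 0 := by
    unfold KK PP
    rw [h1]; simp
  have e1 : KK (θ : E) 1 = (θ : E) 0 ^ 2 - (θ : E) 1 ^ 2 := by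
    unfold KK PP
    rw [h1]; simp
  unfold Ph
  rw [e0, e1]
  have h3 : |(θ : E) 0| ≤ 1 := by
    have := abs_coord (θ : E) 0
    rwa [h1] at this
  have h4 : (θ : E) 0 ^ 2 ≤ |(θ : E) 0| := by
    rw [← sq_abs]
    have := abs_nonneg ((θ : E) 0)
    nlinarith
  rw [max_eq_left]
  · norm_num
  · nlinarith [sq_nonneg ((θ : E) 1)]

lemma rp (ξ : E) (j : Fin 2) : ‖ξ‖ ^ (-(2 * (((dg j : ℝ) + 1) / 2))) = (‖ξ‖ ^ (dg j + 1))⁻¹ := by
  have e : (2 * (((dg j : ℝ) + 1) / 2)) = ((dg j + 1 : ℕ) : ℝ) := by push_cast; ring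
  rw [e, Real.rpow_neg (norm_nonneg _), Real.rpow_natCast]

theorem mult {f : E → ℝ} (hf : ContDiff ℝ ((⊤ : ℕ∞) : WithTop ℕ∞) f) (hs : HasCompactSupport f)
    (x : E) (j : Fin 2) :
    (((∫ y, KK (x - y) j * f y : ℝ)) : ℂ) =
            ∫ ξ, ((‖ξ‖ ^ (-(1 : ℝ)) : ℝ) : ℂ) *
              ((((TT (‖ξ‖⁻¹ • ξ) j + TT (-(‖ξ‖⁻¹ • ξ)) j) / 2 : ℝ) : ℂ)
                - Complex.I * (((TT (‖ξ‖⁻¹ • ξ) j - TT (-(‖ξ‖⁻¹ • ξ)) j) / 2 : ℝ) : ℂ)) *
              (∫ y, Complex.exp (-(2 * (Real.pi : ℂ) * Complex.I * ((inner ℝ y ξ : ℝ) : ℂ)))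
                    * ((f y : ℝ) : ℂ)) *
              Complex.exp (2 * (Real.pi : ℂ) * Complex.I * ((inner ℝ x ξ : ℝ) : ℂ)) := by
  obtain ⟨C, hC⟩ := fh_dec hf hs
  have h := ker_id j hf.continuous hs hC x
  have hL : (((∫ y, KK (x - y) j * f y : ℝ)) : ℂ)
      = ∫ z, ((‖z‖ ^ (-(2 * (((dg j : ℝ) + 1) / 2))) : ℝ) : ℂ) * (((PP j z : ℝ) : ℂ) *
        ((f (x - z) : ℝ) : ℂ)) := by
    have e1 : ∫ y, KK (x - y) j * f y = ∫ z, KK z j * f (x - z) := by
      have := integral_sub_left_eq_self (fun z => KK z j * f (x - z)) (volume : Measure E) x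
      rw [← this]
      refine integral_congr_ae (ae_of_all _ fun y => ?_)
      show _ = KK (x - y) j * f (x - (x - y))
      rw [sub_sub_cancel]
    rw [e1, ← integral_complex_ofReal]
    refine integral_congr_ae (ae_of_all _ fun z => ?_)
    show ((KK z j * f (x - z) : ℝ) : ℂ) = ((‖z‖ ^ (-(2 * (((dg j : ℝ) + 1) / 2))) : ℝ) : ℂ) *
      (((PP j z : ℝ) : ℂ) * ((f (x - z) : ℝ) : ℂ))
    rw [rp]
    unfold KK
    rw [← Complex.ofReal_mul, ← Complex.ofReal_mul]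
    congr 1
    ring
  rw [hL, h]
  refine integral_congr_ae (ae_of_all _ fun ξ => ?_)
  show ((‖ξ‖ ^ (-(2 * (((dg j : ℝ) + 1) / 2))) : ℝ) : ℂ) * (((PP j ξ : ℝ) : ℂ) *
        ((-Complex.I) ^ dg j * (fh f ξ * ex x ξ)))
    = ((‖ξ‖ ^ (-(1 : ℝ)) : ℝ) : ℂ) *
              ((((TT (‖ξ‖⁻¹ • ξ) j + TT (-(‖ξ‖⁻¹ • ξ)) j) / 2 : ℝ) : ℂ)
                - Complex.I * (((TT (‖ξ‖⁻¹ • ξ) j - TT (-(‖ξ‖⁻¹ • ξ)) j) / 2 : ℝ) : ℂ)) *
              fh f ξ * ex x ξ
  rw [rp, Real.rpow_neg_one]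
  fin_cases j
  · show (((‖ξ‖ ^ (dg 0 + 1))⁻¹ : ℝ) : ℂ) * (((PP 0 ξ : ℝ) : ℂ) *
        ((-Complex.I) ^ dg 0 * (fh f ξ * ex x ξ)))
      = ((‖ξ‖⁻¹ : ℝ) : ℂ) *
              ((((TT (‖ξ‖⁻¹ • ξ) 0 + TT (-(‖ξ‖⁻¹ • ξ)) 0) / 2 : ℝ) : ℂ)
                - Complex.I * (((TT (‖ξ‖⁻¹ • ξ) 0 - TT (-(‖ξ‖⁻¹ • ξ)) 0) / 2 : ℝ) : ℂ)) *
              fh f ξ * ex x ξ
    rw [TT0, TT0]
    simp only [PiLp.neg_apply, PiLp.smul_apply, smul_eq_mul, PP, dg, if_true]
    push_cast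
    ring
  · show (((‖ξ‖ ^ (dg 1 + 1))⁻¹ : ℝ) : ℂ) * (((PP 1 ξ : ℝ) : ℂ) *
        ((-Complex.I) ^ dg 1 * (fh f ξ * ex x ξ)))
      = ((‖ξ‖⁻¹ : ℝ) : ℂ) *
              ((((TT (‖ξ‖⁻¹ • ξ) 1 + TT (-(‖ξ‖⁻¹ • ξ)) 1) / 2 : ℝ) : ℂ)
                - Complex.I * (((TT (‖ξ‖⁻¹ • ξ) 1 - TT (-(‖ξ‖⁻¹ • ξ)) 1) / 2 : ℝ) : ℂ)) *
              fh f ξ * ex x ξ
    rw [TT1, TT1]
    simp only [PiLp.neg_apply, PiLp.smul_apply, smul_eq_mul, PP, dg, one_ne_zero, if_false]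
    have hI : (-Complex.I) ^ 2 = -1 := by rw [neg_sq, Complex.I_sq]
    rw [hI]
    push_cast
    ring

end Pool.Agent.R247.MZ
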